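import Pool.Agent.H29MM.Stm

/-!
Project MM: the Williamson array (stub ARR).
-/

set_option autoImplicit false

namespace Pool.Agent.H29MM.ARR

open Matrix Pool.Agent.H29MM
open scoped Kronecker

/-- a commuting family of symmetric weighing matrices -/
structure Fam {n : ℕ} {κ : Type} [Fintype κ] [DecidableEq κ] (a : Fin n → ℕ)
    (N : Fin n → Matrix κ κ ℤ) : Prop where
  w : ∀ m, IsW (a m) (N m)
  comm : ∀ m m', N m * N m' = N m' * N m

theorem isW_kl {ι κ : Type} [Fintype ι] [DecidableEq ι] [Fintype κ] [DecidableEq κ] {a : ℕ}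
    {M : Matrix ι ι ℤ} (h : IsW a M) : IsW a (M ⊗ₖ (1 : Matrix κ κ ℤ)) := by
  refine ⟨fun i j => ?_, fun i j => ?_, ?_⟩
  · rw [Matrix.kroneckerMap_apply, Matrix.one_apply]
    split_ifs
    · rw [mul_one]; exact h.tri _ _
    · left; rw [mul_zero]
  · rw [Matrix.kroneckerMap_apply, Matrix.kroneckerMap_apply, h.sym, Matrix.one_apply,
      Matrix.one_apply]
    simp only [eq_comm]
  · rw [← Matrix.mul_kronecker_mul, h.sq, Matrix.one_mul, Matrix.smul_kronecker,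
      Matrix.one_kronecker_one]

theorem isW_kr {ι κ : Type} [Fintype ι] [DecidableEq ι] [Fintype κ] [DecidableEq κ] {a : ℕ}
    {M : Matrix κ κ ℤ} (h : IsW a M) : IsW a ((1 : Matrix ι ι ℤ) ⊗ₖ M) := by
  refine ⟨fun i j => ?_, fun i j => ?_, ?_⟩
  · rw [Matrix.kroneckerMap_apply, Matrix.one_apply]
    split_ifs
    · rw [one_mul]; exact h.tri _ _
    · left; rw [zero_mul]
  · rw [Matrix.kroneckerMap_apply, Matrix.kroneckerMap_apply, h.sym, Matrix.one_apply,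
      Matrix.one_apply]
    simp only [eq_comm]
  · rw [← Matrix.mul_kronecker_mul, h.sq, Matrix.one_mul, Matrix.kronecker_smul,
      Matrix.one_kronecker_one]

theorem Fam.cons {n : ℕ} {ι κ : Type} [Fintype ι] [DecidableEq ι] [Fintype κ] [DecidableEq κ]
    {a : Fin n → ℕ} {N : Fin n → Matrix κ κ ℤ} (h : Fam a N) {b : ℕ} {M : Matrix ι ι ℤ}
    (hM : IsW b M) :
    Fam (Matrix.vecCons b a) (Matrix.vecCons (M ⊗ₖ (1 : Matrix κ κ ℤ))
      (fun m => (1 : Matrix ι ι ℤ) ⊗ₖ N m)) := by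
  refine ⟨fun m => ?_, fun m m' => ?_⟩
  · refine Fin.cases ?_ (fun m => ?_) m
    · exact isW_kl hM
    · exact isW_kr (h.w m)
  · refine Fin.cases ?_ (fun m => ?_) m
    · refine Fin.cases ?_ (fun m' => ?_) m'
      · rfl
      · simp only [Matrix.cons_val_zero, Matrix.cons_val_succ]
        rw [← Matrix.mul_kronecker_mul, ← Matrix.mul_kronecker_mul, Matrix.one_mul,
          Matrix.one_mul, Matrix.mul_one, Matrix.mul_one]
    · refine Fin.cases ?_ (fun m' => ?_) m'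
      · simp only [Matrix.cons_val_zero, Matrix.cons_val_succ]
        rw [← Matrix.mul_kronecker_mul, ← Matrix.mul_kronecker_mul, Matrix.one_mul,
          Matrix.one_mul, Matrix.mul_one, Matrix.mul_one]
      · simp only [Matrix.cons_val_succ]
        rw [← Matrix.mul_kronecker_mul, ← Matrix.mul_kronecker_mul, h.comm]

theorem Fam.one {κ : Type} [Fintype κ] [DecidableEq κ] {b : ℕ} {M : Matrix κ κ ℤ}
    (hM : IsW b M) : Fam (n := 1) (fun _ => b) (fun _ => M) :=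
  ⟨fun _ => hM, fun _ _ => rfl⟩

theorem Fam.trans {n : ℕ} {κ κ' : Type} [Fintype κ] [DecidableEq κ] [Fintype κ'] [DecidableEq κ']
    {a : Fin n → ℕ} {N : Fin n → Matrix κ κ ℤ} (h : Fam a N) (e : κ' ≃ κ) :
    Fam a (fun m => (N m).submatrix e e) := by
  refine ⟨fun m => ⟨fun i j => (h.w m).tri _ _, fun i j => (h.w m).sym _ _, ?_⟩, fun m m' => ?_⟩
  · rw [Matrix.submatrix_mul_equiv, (h.w m).sq]
    ext i j
    rw [Matrix.submatrix_apply, Matrix.smul_apply, Matrix.smul_apply, Matrix.one_apply,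
      Matrix.one_apply]
    simp only [EmbeddingLike.apply_eq_iff_eq]
  · rw [Matrix.submatrix_mul_equiv, Matrix.submatrix_mul_equiv, h.comm]

/-- the table of the Williamson array -/
def ff : Fin 4 → Fin 4 → Fin 4 := ![![0, 1, 2, 3], ![1, 0, 3, 2], ![2, 3, 0, 1], ![3, 2, 1, 0]]

/-- the signs of the Williamson array -/
def ss : Fin 4 → Fin 4 → ℤ := ![![1, 1, 1, 1], ![-1, 1, -1, 1], ![-1, 1, 1, -1], ![-1, -1, 1, 1]]

/-- the Williamson array -/
def WA {κ : Type} (N : Fin 4 → Matrix κ κ ℤ) : Matrix (Fin 4 × κ) (Fin 4 × κ) ℤ :=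
  fun p q => ss p.1 q.1 * N (ff p.1 q.1) p.2 q.2

theorem ss_sq : ∀ u v, ss u v = 1 ∨ ss u v = -1 := by decide

theorem ff_one : ∀ u, ∃ v, ff u v = 1 := by decide

theorem WA_tri {κ : Type} [Fintype κ] [DecidableEq κ] {a : Fin 4 → ℕ}
    {N : Fin 4 → Matrix κ κ ℤ} (h : Fam a N) : Tri (WA N) := by
  intro p q
  unfold WA
  rcases ss_sq p.1 q.1 with e | e <;> rw [e] <;>
    rcases (h.w (ff p.1 q.1)).tri p.2 q.2 with e' | e' | e' <;> rw [e'] <;> simp

theorem WA_mul {κ : Type} [Fintype κ] [DecidableEq κ] {a : Fin 4 → ℕ}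
    {N : Fin 4 → Matrix κ κ ℤ} (h : Fam a N) :
    WA N * (WA N).transpose = ((a 0 ^ 2 + a 1 ^ 2 + a 2 ^ 2 + a 3 ^ 2 : ℕ) : ℤ) •
      (1 : Matrix (Fin 4 × κ) (Fin 4 × κ) ℤ) := by
  ext ⟨u, x⟩ ⟨v, y⟩
  have e1 : (WA N * (WA N).transpose) (u, x) (v, y)
      = ∑ t : Fin 4, (ss u t * ss v t) * (N (ff u t) * N (ff v t)) x y := by
    rw [Matrix.mul_apply, Fintype.sum_prod_type]
    refine Finset.sum_congr rfl fun t _ => ?_
    rw [Matrix.mul_apply, Finset.mul_sum]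
    refine Finset.sum_congr rfl fun z _ => ?_
    simp only [WA, Matrix.transpose_apply]
    rw [(h.w (ff v t)).sym y z]
    ring
  rw [e1]
  have q0 := (h.w 0).sq
  have q1 := (h.w 1).sq
  have q2 := (h.w 2).sq
  have q3 := (h.w 3).sq
  have c10 := h.comm 1 0
  have c20 := h.comm 2 0
  have c30 := h.comm 3 0
  have c21 := h.comm 2 1
  have c31 := h.comm 3 1
  have c32 := h.comm 3 2
  have hs : ((((a 0 ^ 2 + a 1 ^ 2 + a 2 ^ 2 + a 3 ^ 2 : ℕ) : ℤ) •
      (1 : Matrix (Fin 4 × κ) (Fin 4 × κ) ℤ)) (u, x) (v, y))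
      = if u = v then ((a 0 : ℤ) ^ 2 + (a 1 : ℤ) ^ 2 + (a 2 : ℤ) ^ 2 + (a 3 : ℤ) ^ 2)
        * (1 : Matrix κ κ ℤ) x y else 0 := by
    rw [Matrix.smul_apply, Matrix.one_apply, Matrix.one_apply, smul_eq_mul]
    by_cases h1 : u = v <;> by_cases h2 : x = y <;> simp [h1, h2]
  rw [hs]
  fin_cases u <;> fin_cases v <;>
    simp [Fin.sum_univ_four, ss, ff, q0, q1, q2, q3, c10, c20, c30, c21, c31, c32] <;> ring

theorem t (h : St_ODD) : St_ARR := by
  intro a₁ a₂ a₃ a₄ h1 h2 h3 h4 h1'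
  obtain ⟨k₁, o1, b1, M₁, w1⟩ := h a₁ h1
  obtain ⟨k₂, o2, b2, M₂, w2⟩ := h a₂ h2
  obtain ⟨k₃, o3, b3, M₃, w3⟩ := h a₃ h3
  obtain ⟨k₄, o4, b4, M₄, w4⟩ := h a₄ h4
  have hk1 : 1 < k₁ := by
    rcases Nat.lt_or_ge 1 k₁ with h | h
    · exact h
    · exfalso
      have e : k₁ = 1 := by
        have := o1.pos
        omega
      subst e
      have hs := congrFun (congrFun w1.sq 0) 0
      rw [Matrix.mul_apply] at hs
      simp only [Fin.sum_univ_one, Matrix.smul_apply, Matrix.one_apply_eq, smul_eq_mul,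
        mul_one] at hs
      have ha : (2 : ℤ) ≤ a₁ := by exact_mod_cast h1'
      rcases w1.tri 0 0 with e | e | e <;> simp only [e] at hs <;> nlinarith
  have F := ((((Fam.one w4).cons w3).cons w2).cons w1)
  have hc : Fintype.card (Fin k₁ × (Fin k₂ × (Fin k₃ × Fin k₄))) = k₁ * (k₂ * (k₃ * k₄)) := by
    simp [Fintype.card_prod, Fintype.card_fin]
  let e : Fin (k₁ * (k₂ * (k₃ * k₄))) ≃ Fin k₁ × (Fin k₂ × (Fin k₃ × Fin k₄)) :=
    (Fintype.equivFinOfCardEq hc).symm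
  have G := F.trans e
  refine ⟨k₁ * (k₂ * (k₃ * k₄)), o1.mul (o2.mul (o3.mul o4)), ?_, WA _, WA_tri G, ?_, ?_⟩
  · have : (a₁ * a₂ * a₃ * a₄) ^ 3 = a₁ ^ 3 * (a₂ ^ 3 * (a₃ ^ 3 * a₄ ^ 3)) := by ring
    rw [this]
    exact Nat.mul_le_mul b1 (Nat.mul_le_mul b2 (Nat.mul_le_mul b3 b4))
  · have := WA_mul G
    exact this
  · rintro ⟨u, x⟩
    obtain ⟨v, hv⟩ := ff_one u
    have : Nontrivial (Fin k₁) := Fin.nontrivial_iff_two_le.2 hk1
    obtain ⟨y₁, hy⟩ := exists_ne (e x).1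
    refine ⟨(v, e.symm (y₁, (e x).2)), ?_⟩
    unfold WA
    simp only [hv]
    have : (1 : Matrix (Fin k₁) (Fin k₁) ℤ) (e x).1 y₁ = 0 := Matrix.one_apply_ne hy.symm
    simp only [Matrix.submatrix_apply, Equiv.apply_symm_apply]
    simp only [Matrix.cons_val_one, Matrix.cons_val_zero, Matrix.kroneckerMap_apply, this,
      zero_mul, mul_zero]

end Pool.Agent.H29MM.ARR
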