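import Pool.Agent.H29MM.Stm

/-!
# Project MM (helper29): the stub BLOW, the blow-up of a pattern of a sign matrix
-/

set_option autoImplicit false

namespace Pool.Agent.H29MM.BLOW

open Matrix

theorem sum_split {J Ω M : Type} [Fintype J] [Fintype Ω] [AddCommMonoid M] (c : J → Ω)
    (hc : Function.Injective c) [Fintype {y : Ω // y ∉ Set.range c}] (g : Ω → M) :
    ∑ y : {y : Ω // y ∉ Set.range c}, g y + ∑ j, g (c j) = ∑ y, g y := by
  classical
  have h1 := Fintype.sum_subtype_add_sum_subtype (fun y => y ∈ Set.range c) g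
  have h2 : ∑ i : {x // x ∈ Set.range c}, g i = ∑ j, g (c j) :=
    (Equiv.sum_comp (Equiv.ofInjective c hc) (fun i : {x // x ∈ Set.range c} => g i)).symm
  calc ∑ y : {y : Ω // y ∉ Set.range c}, g y + ∑ j, g (c j) =
      ∑ i : {x // x ∈ Set.range c}, g i + ∑ y : {y : Ω // y ∉ Set.range c}, g y := by rw [h2, add_comm]
    _ = ∑ y, g y := by
      rw [← h1]
      have e1 : ∀ (P : Ω → Prop) (i1 i2 : Fintype {y : Ω // P y}),
          @Finset.sum {y : Ω // P y} M _ (@Finset.univ _ i1) (fun y => g y.1) =
            @Finset.sum {y : Ω // P y} M _ (@Finset.univ _ i2) (fun y => g y.1) := by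
        intro P i1 i2
        have e2 : i1 = i2 := Subsingleton.elim i1 i2
        subst e2
        rfl
      exact congrArg₂ (· + ·) (e1 _ _ _) (e1 _ _ _)

theorem sgn_prod {J : Type} (s : J → ℤ) (hs : ∀ j, s j = 1 ∨ s j = -1) (t : Finset J) :
    (∏ j ∈ t, s j = 1 ∨ ∏ j ∈ t, s j = -1) ∧
      (4 : ℤ) ∣ ∏ j ∈ t, s j - ∑ j ∈ t, s j + t.card - 1 := by
  classical
  induction t using Finset.induction_on with
  | empty => simp
  | insert a t ha ih =>
    obtain ⟨h1, h2⟩ := ih
    rw [Finset.prod_insert ha, Finset.sum_insert ha, Finset.card_insert_of_notMem ha]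
    push_cast
    generalize ∏ j ∈ t, s j = P at *
    generalize ∑ j ∈ t, s j = S at *
    rcases hs a with h | h <;> rcases h1 with h3 | h3 <;> rw [h, h3] <;> rw [h3] at h2 <;>
      refine ⟨by norm_num, by omega⟩

theorem four_dvd {J : Type} [Fintype J] (s : J → ℤ) (hs : ∀ j, s j = 1 ∨ s j = -1) (hp : ∏ j, s j = 1)
    (h4 : 4 ∣ Fintype.card J) : (4 : ℤ) ∣ ∑ j, s j := by
  have h1 := (sgn_prod s hs Finset.univ).2
  rw [hp, Finset.card_univ] at h1
  have h2 : (4 : ℤ) ∣ (Fintype.card J : ℤ) := by exact_mod_cast h4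
  omega

theorem sum_b (v : ℕ) (a a' : Fin v) (K A K' A' : ℤ) :
    ∑ b : Fin v, (K + 2 * A * (1 - if a = b then 1 else 0)) * (K' + 2 * A' * (1 - if a' = b then 1 else 0)) =
      K * K' + ((v : ℤ) - 1) * ((K + 2 * A) * (K' + 2 * A')) -
        4 * (A * A') * (1 - if a = a' then 1 else 0) := by
  have h : ∀ b : Fin v, (K + 2 * A * (1 - if a = b then 1 else 0)) *
      (K' + 2 * A' * (1 - if a' = b then 1 else 0)) =
      (K + 2 * A) * (K' + 2 * A') - 2 * A * (K' + 2 * A') * (if a = b then 1 else 0) -
      2 * A' * (K + 2 * A) * (if a' = b then 1 else 0) +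
      4 * (A * A') * (if a = b then (if a = a' then 1 else 0) else 0) := by
    intro b
    by_cases h1 : a = b
    · by_cases h2 : a' = b
      · have h3 : a = a' := h1.trans h2.symm
        rw [if_pos h1, if_pos h2, if_pos h1, if_pos h3]
        ring
      · have h3 : a ≠ a' := fun h => h2 (h ▸ h1)
        rw [if_pos h1, if_neg h2, if_pos h1, if_neg h3]
        ring
    · rw [if_neg h1, if_neg h1]
      ring
  rw [Finset.sum_congr rfl fun b _ => h b]
  simp only [Finset.sum_add_distrib, Finset.sum_sub_distrib, ← Finset.mul_sum, Finset.sum_const,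
    Finset.sum_ite_eq, Finset.mem_univ, if_true, Finset.card_univ, Fintype.card_fin, nsmul_eq_mul]
  ring

variable {J Ω : Type} [Fintype J] [DecidableEq J] [Fintype Ω] [DecidableEq Ω]

/-- the new matrix -/
def HH (E : Matrix Ω Ω ℤ) (A : Matrix J J ℤ) (r c : J → Ω) (v : ℕ) :
    ({x : Ω // x ∉ Set.range r} ⊕ (J × Fin v)) → ({y : Ω // y ∉ Set.range c} ⊕ (J × Fin v)) → ℤ
  | .inl x, .inl y => E x y
  | .inl x, .inr q => E x (c q.1)
  | .inr p, .inl y => E (r p.1) y
  | .inr p, .inr q => E (r p.1) (c q.1) + 2 * A p.1 q.1 * (1 - if p.2 = q.2 then 1 else 0)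

omit [DecidableEq J] [Fintype Ω] [DecidableEq Ω] in
theorem sum_C {v : ℕ} (c : J → Ω) [Fintype {y : Ω // y ∉ Set.range c}]
    (F : ({y : Ω // y ∉ Set.range c} ⊕ (J × Fin v)) → ℤ) :
    ∑ y, F y = ∑ y : {y : Ω // y ∉ Set.range c}, F (.inl y) + ∑ j, ∑ b, F (.inr (j, b)) := by
  rw [Fintype.sum_sum_type, Fintype.sum_prod_type]

theorem t : St_BLOW := by
  classical
  intro J Ω _ _ _ _ E A r c w d v hA hAA hE hEE hr hc hK hprod hJ4 hΩ4 hw hd hv hdv hdN
  set L := Fintype.card J with hL
  set N := Fintype.card Ω with hN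
  -- basic facts
  have hEE' : ∀ x x', ∑ y, E x y * E x' y = if x = x' then (N : ℤ) else 0 := by
    intro x x'
    have h1 := congrFun (congrFun hEE x) x'
    rw [Matrix.mul_apply, Matrix.smul_apply, Matrix.one_apply, smul_eq_mul] at h1
    simp only [Matrix.transpose_apply] at h1
    rw [h1]
    split_ifs <;> simp
  have hAA' : ∀ i i', ∑ j, A i j * A i' j = if i = i' then (w : ℤ) else 0 := by
    intro x x'
    have h1 := congrFun (congrFun hAA x) x'
    rw [Matrix.mul_apply, Matrix.smul_apply, Matrix.one_apply, smul_eq_mul] at h1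
    simp only [Matrix.transpose_apply] at h1
    rw [h1]
    split_ifs <;> simp
  set K : J → J → ℤ := fun i j => E (r i) (c j) with hKd
  have hKK : ∀ i j, K i j = 1 ∨ K i j = -1 := fun i j => hE _ _
  set G : J → J → ℤ := fun i j => K i j + 2 * A i j with hG
  have hGK : ∀ i j, G i j = K i j * (1 - 2 * A i j ^ 2) ∧
      (1 - 2 * A i j ^ 2 = 1 ∨ 1 - 2 * A i j ^ 2 = -1) := by
    intro i j
    rw [hG]
    dsimp only
    rcases hA i j with h | h | h
    · rw [h]
      norm_num
    · have := hK i j (by rw [h]; norm_num)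
      rw [hKd]
      dsimp only
      rw [this, h]
      norm_num
    · have := hK i j (by rw [h]; norm_num)
      rw [hKd]
      dsimp only
      rw [this, h]
      norm_num
  have hGs : ∀ i j, G i j = 1 ∨ G i j = -1 := by
    intro i j
    obtain ⟨h1, h2⟩ := hGK i j
    rw [h1]
    rcases hKK i j with h | h <;> rcases h2 with h' | h' <;> rw [h, h'] <;> norm_num
  have hGp : ∀ i, ∏ j, G i j = 1 := by
    intro i
    have h1 : ∏ j, G i j = (∏ j, K i j) * ∏ j, (1 - 2 * A i j ^ 2) := by
      rw [← Finset.prod_mul_distrib]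
      exact Finset.prod_congr rfl fun j _ => (hGK i j).1
    have h2 : ∏ j, K i j = 1 := hprod (r i)
    obtain ⟨h3, h4⟩ := sgn_prod (fun j => 1 - 2 * A i j ^ 2) (fun j => (hGK i j).2) Finset.univ
    have h5 : ∑ j, (1 - 2 * A i j ^ 2) = (L : ℤ) - 2 * w := by
      rw [Finset.sum_sub_distrib, ← Finset.mul_sum]
      have h6 := hAA' i i
      rw [if_pos rfl] at h6
      have h7 : ∑ j, A i j ^ 2 = (w : ℤ) := by
        rw [← h6]
        exact Finset.sum_congr rfl fun j _ => by ring
      rw [h7]
      simp [hL]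
    rw [h5, Finset.card_univ] at h4
    rw [h1, h2, one_mul]
    rcases h3 with h3 | h3
    · exact h3
    · exfalso
      rw [h3] at h4
      obtain ⟨w', hw'⟩ := hw
      omega
  -- divisibility
  obtain ⟨q, hq⟩ := hdv
  have hsmall : ∀ s : J → ℤ, (∀ j, s j = 1 ∨ s j = -1) → ∏ j, s j = 1 →
      (4 * (d : ℤ)) ∣ ((v : ℤ) - 1) * ∑ j, s j := by
    intro s hs hp
    obtain ⟨S', hS'⟩ := four_dvd s hs hp hJ4
    exact ⟨q * S', by rw [hq, hS']; ring⟩
  -- columns
  have hcol : ∀ (x x' : Ω), ∑ y : {y : Ω // y ∉ Set.range c}, E x y * E x' y =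
      (if x = x' then (N : ℤ) else 0) - ∑ j, E x (c j) * E x' (c j) := by
    intro x x'
    have h1 := sum_split c hc (fun y => E x y * E x' y)
    rw [hEE'] at h1
    linarith
  -- cards
  have hcard : ∀ f : J → Ω, Function.Injective f →
      Fintype.card ({x : Ω // x ∉ Set.range f} ⊕ (J × Fin v)) = N + L * (v - 1) := by
    intro f hf
    have h1 := sum_split f hf (fun _ => (1 : ℕ))
    rw [Finset.sum_const, Finset.sum_const, Finset.sum_const, Finset.card_univ, Finset.card_univ,
      Finset.card_univ, smul_eq_mul, smul_eq_mul, smul_eq_mul, mul_one, mul_one, mul_one] at h1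
    rw [Fintype.card_sum, Fintype.card_prod, Fintype.card_fin]
    obtain ⟨v', rfl⟩ : ∃ v', v = v' + 1 := ⟨v - 1, by omega⟩
    rw [Nat.add_sub_cancel]
    rw [← hL, ← hN] at h1
    rw [← hL]
    rw [mul_add, mul_one]
    omega
  have eR := (Fintype.equivFinOfCardEq (hcard r hr)).symm
  have eC := (Fintype.equivFinOfCardEq (hcard c hc)).symm
  refine ⟨fun i j => HH E A r c v (eR i) (eC j), fun i j => ?_, fun i j hij => ?_⟩
  · -- signs
    change HH E A r c v (eR i) (eC j) = 1 ∨ HH E A r c v (eR i) (eC j) = -1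
    generalize eR i = x
    generalize eC j = y
    rcases x with x | ⟨i, a⟩ <;> rcases y with y | ⟨j, b⟩
    · exact hE _ _
    · exact hE _ _
    · exact hE _ _
    · change K i j + 2 * A i j * (1 - if a = b then 1 else 0) = 1 ∨
        K i j + 2 * A i j * (1 - if a = b then 1 else 0) = -1
      split_ifs
      · rw [sub_self, mul_zero, add_zero]
        exact hKK i j
      · rw [sub_zero, mul_one]
        exact hGs i j
  · have hne : eR i ≠ eR j := fun h => hij (eR.injective h)
    rw [Equiv.sum_comp eC (fun y => HH E A r c v (eR i) y * HH E A r c v (eR j) y)]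
    generalize eR i = x at *
    generalize eR j = x' at *
    rw [sum_C c]
    rcases x with x | ⟨i, a⟩ <;> rcases x' with x' | ⟨i', a'⟩
    · -- two old rows
      have hxx : (x : Ω) ≠ x' := fun h => hne (by rw [Subtype.ext h])
      have h1 : ∑ j, ∑ b, HH E A r c v (.inl x) (.inr (j, b)) * HH E A r c v (.inl x') (.inr (j, b)) =
          (v : ℤ) * ∑ j, E x (c j) * E x' (c j) := by
        change ∑ j, ∑ _b : Fin v, E x (c j) * E x' (c j) = _
        simp only [Finset.sum_const, Finset.card_univ, Fintype.card_fin, nsmul_eq_mul]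
        rw [Finset.mul_sum]
      rw [h1]
      change (4 * (d : ℤ)) ∣ ∑ y : {y : Ω // y ∉ Set.range c}, E x y * E x' y + _
      rw [hcol, if_neg hxx]
      have h2 := hsmall (fun j => E x (c j) * E x' (c j))
        (fun j => by rcases hE x (c j) with h | h <;> rcases hE x' (c j) with h' | h' <;> rw [h, h'] <;> norm_num)
        (by rw [Finset.prod_mul_distrib, hprod, hprod, one_mul])
      convert h2 using 1
      ring
    · -- old and new
      have hxx : (x : Ω) ≠ r i' := fun h => x.2 ⟨i', h.symm⟩
      have h1 : ∑ j, ∑ b, HH E A r c v (.inl x) (.inr (j, b)) * HH E A r c v (.inr (i', a')) (.inr (j, b)) =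
          ∑ j, (E x (c j) * K i' j + ((v : ℤ) - 1) * (E x (c j) * G i' j)) := by
        refine Finset.sum_congr rfl fun j _ => ?_
        have h2 := sum_b v a' a' (E x (c j)) 0 (K i' j) (A i' j)
        rw [if_pos rfl] at h2
        calc ∑ b, HH E A r c v (.inl x) (.inr (j, b)) * HH E A r c v (.inr (i', a')) (.inr (j, b)) =
            ∑ b : Fin v, (E x (c j) + 2 * 0 * (1 - if a' = b then 1 else 0)) *
              (K i' j + 2 * A i' j * (1 - if a' = b then 1 else 0)) := by
              refine Finset.sum_congr rfl fun b _ => ?_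
              change E x (c j) * (K i' j + 2 * A i' j * (1 - if a' = b then 1 else 0)) = _
              ring
          _ = _ := by
              rw [h2, hG]
              ring
      rw [h1, Finset.sum_add_distrib, ← Finset.mul_sum]
      change (4 * (d : ℤ)) ∣ ∑ y : {y : Ω // y ∉ Set.range c}, E x y * E (r i') y + _
      rw [hcol, if_neg hxx]
      have h2 := hsmall (fun j => E x (c j) * G i' j)
        (fun j => by rcases hE x (c j) with h | h <;> rcases hGs i' j with h' | h' <;> rw [h, h'] <;> norm_num)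
        (by rw [Finset.prod_mul_distrib, hprod, hGp, one_mul])
      convert h2 using 1
      rw [hKd]
      ring
    · -- new and old
      have hxx : r i ≠ x' := fun h => x'.2 ⟨i, h⟩
      have h1 : ∑ j, ∑ b, HH E A r c v (.inr (i, a)) (.inr (j, b)) * HH E A r c v (.inl x') (.inr (j, b)) =
          ∑ j, (K i j * E x' (c j) + ((v : ℤ) - 1) * (G i j * E x' (c j))) := by
        refine Finset.sum_congr rfl fun j _ => ?_
        have h2 := sum_b v a a (K i j) (A i j) (E x' (c j)) 0
        rw [if_pos rfl] at h2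
        calc ∑ b, HH E A r c v (.inr (i, a)) (.inr (j, b)) * HH E A r c v (.inl x') (.inr (j, b)) =
            ∑ b : Fin v, (K i j + 2 * A i j * (1 - if a = b then 1 else 0)) *
              (E x' (c j) + 2 * 0 * (1 - if a = b then 1 else 0)) := by
              refine Finset.sum_congr rfl fun b _ => ?_
              change (K i j + 2 * A i j * (1 - if a = b then 1 else 0)) * E x' (c j) = _
              ring
          _ = _ := by
              rw [h2, hG]
              ring
      rw [h1, Finset.sum_add_distrib, ← Finset.mul_sum]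
      change (4 * (d : ℤ)) ∣ ∑ y : {y : Ω // y ∉ Set.range c}, E (r i) y * E x' y + _
      rw [hcol, if_neg hxx]
      have h2 := hsmall (fun j => G i j * E x' (c j))
        (fun j => by rcases hE x' (c j) with h | h <;> rcases hGs i j with h' | h' <;> rw [h, h'] <;> norm_num)
        (by rw [Finset.prod_mul_distrib, hprod, hGp, one_mul])
      convert h2 using 1
      rw [hKd]
      ring
    · -- two new rows
      have h1 : ∑ j, ∑ b, HH E A r c v (.inr (i, a)) (.inr (j, b)) * HH E A r c v (.inr (i', a')) (.inr (j, b)) =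
          ∑ j, (K i j * K i' j + ((v : ℤ) - 1) * (G i j * G i' j) -
            4 * (A i j * A i' j) * (1 - if a = a' then 1 else 0)) :=
        Finset.sum_congr rfl fun j _ => sum_b v a a' (K i j) (A i j) (K i' j) (A i' j)
      rw [h1, Finset.sum_sub_distrib, Finset.sum_add_distrib, ← Finset.mul_sum, ← Finset.sum_mul,
        ← Finset.mul_sum, hAA']
      change (4 * (d : ℤ)) ∣ ∑ y : {y : Ω // y ∉ Set.range c}, E (r i) y * E (r i') y + _
      rw [hcol]
      by_cases hii : i = i'
      · subst hii
        have haa : a ≠ a' := fun h => hne (by rw [h])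
        rw [if_pos rfl, if_pos rfl, if_neg haa]
        have h2 : ∑ j, G i j * G i j = (L : ℤ) := by
          rw [Finset.sum_congr rfl (fun j _ => show G i j * G i j = 1 by
            rcases hGs i j with h | h <;> rw [h] <;> norm_num)]
          simp [hL]
        rw [h2]
        have h3 : ((N : ℤ) - ∑ j, E (r i) (c j) * E (r i) (c j)) + (∑ j, K i j * K i j +
            ((v : ℤ) - 1) * L - 4 * w * (1 - 0)) = (N - 4 * w) + ((v : ℤ) - 1) * L := by
          rw [hKd]
          ring
        rw [h3]
        have hcop : IsCoprime (4 : ℤ) (d : ℤ) := by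
          have h4 : Nat.Coprime 4 d := by
            have : Nat.Coprime (2 ^ 2) d := Nat.Coprime.pow_left 2 ((Nat.coprime_two_left).2 hd)
            exact this
          exact_mod_cast Nat.isCoprime_iff_coprime.2 h4
        refine hcop.mul_dvd ?_ ?_
        · have h5 : (4 : ℤ) ∣ (N : ℤ) := by exact_mod_cast hΩ4
          have h6 : (4 : ℤ) ∣ (L : ℤ) := by exact_mod_cast hJ4
          exact dvd_add (dvd_sub h5 (dvd_mul_right _ _)) (Dvd.dvd.mul_left h6 _)
        · exact dvd_add hdN (Dvd.dvd.mul_right ⟨q, hq⟩ _)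
      · have hrr : r i ≠ r i' := fun h => hii (hr h)
        rw [if_neg hii, if_neg hrr]
        have h2 := hsmall (fun j => G i j * G i' j)
          (fun j => by rcases hGs i j with h | h <;> rcases hGs i' j with h' | h' <;> rw [h, h'] <;> norm_num)
          (by rw [Finset.prod_mul_distrib, hGp, hGp, one_mul])
        convert h2 using 1
        rw [hKd]
        ring

end Pool.Agent.H29MM.BLOW
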