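import Mathlib

/-!
# Project MM (helper29, MP_d8b1b3_co): modular Hadamard matrices for all odd moduli

Theorem: for all large `n` divisible by `2 ^ a`, `a ≥ 2`, and all odd `d ≤ (log n) ^ (1 / 8)` there is an
`n × n` sign matrix whose distinct rows have inner products divisible by `2 ^ a * d`.

Independent stubs. Prove `theorem Pool.Agent.H29MM.<Stub>.t : ... → Pool.Agent.H29MM.St_<Stub>` in
`Pool/Agent/H29MM/<Stub>.lean` (import only this file). Hypotheses allowed are given in the docstrings.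
-/

set_option autoImplicit false

namespace Pool.Agent.H29MM

open Matrix

/-- entries `0`, `1`, `-1` -/
def Tri {ι κ : Type} (M : Matrix ι κ ℤ) : Prop := ∀ i j, M i j = 0 ∨ M i j = 1 ∨ M i j = -1

/-- entries `1`, `-1` -/
def Sgn {ι κ : Type} (M : Matrix ι κ ℤ) : Prop := ∀ i j, M i j = 1 ∨ M i j = -1

/-- symmetric weighing matrix of weight `a ^ 2` -/
structure IsW (a : ℕ) {κ : Type} [Fintype κ] [DecidableEq κ] (M : Matrix κ κ ℤ) : Prop where
  tri : Tri M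
  sym : ∀ i j, M i j = M j i
  sq : M * M = ((a : ℤ) ^ 2) • (1 : Matrix κ κ ℤ)

/-- there is a Hadamard matrix of order `n` -/
def HasHad (n : ℕ) : Prop :=
  ∃ H : Matrix (Fin n) (Fin n) ℤ, (∀ i j, H i j = 1 ∨ H i j = -1) ∧
    H * H.transpose = (n : ℤ) • (1 : Matrix (Fin n) (Fin n) ℤ)

/-- sign matrix of order `n` whose distinct rows have inner products divisible by `m` -/
def HasMod (m : ℤ) (n : ℕ) : Prop := ∃ H : Matrix (Fin n) (Fin n) ℤ,
  (∀ i j, H i j = 1 ∨ H i j = -1) ∧ ∀ i j, i ≠ j → m ∣ ∑ k, H i k * H j k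

/-- **PGM** (the symmetric weighing matrix `W (p ^ 2 + p + 1, p ^ 2)`).
Proof. `F = ZMod p`, `χ` its quadratic character (`quadraticChar F`, values `0, ±1`, `χ a = 0 ↔ a = 0`,
multiplicative, `∑ a, χ a = 0` is `quadraticChar_sum_zero`, needs `ringChar F ≠ 2`). Representatives of
the points of the projective plane: `R = (F × F) ⊕ F ⊕ Unit`, `(b, c) ↦ (1, b, c)`, `c ↦ (0, 1, c)`,
`() ↦ (0, 0, 1)`; `card R = p ^ 2 + p + 1`. Put `M x y = χ (x ⬝ y)` (dot product of the representatives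
in `F ^ 3`). It is symmetric with entries `0, ±1`. For `x, z : R`:
`(p - 1) * ∑ y : R, χ (x ⬝ y) χ (z ⬝ y) = ∑ y : F ^ 3, χ (x ⬝ y) χ (z ⬝ y)`, as every nonzero vector
of `F ^ 3` is uniquely `c • y` with `c ≠ 0`, `y : R`, and `χ (c * s) χ (c * t) = χ (c ^ 2) χ s χ t =
χ s χ t` for `c ≠ 0` (the vector `0` contributes `0`). If `x = z` the right side is the number of `y` with
`x ⬝ y ≠ 0`, that is `p ^ 3 - p ^ 2 = (p - 1) p ^ 2`. If `x ≠ z`, two representatives, some minor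
`x i * z j - x j * z i`, `i ≠ j`, is not zero (they are not proportional: compare the first nonzero
coordinates, which are `1`), and with the third coordinate of `y` fixed, `(y i, y j) ↦ (x ⬝ y, z ⬝ y)` is a
bijection of `F ^ 2` (Cramer), so the inner sum is `(∑ χ) * (∑ χ) = 0`. (Alternatively: case analysis on the
kinds of `x` and `z`, direct sums.) Transport to `Fin (p ^ 2 + p + 1)` by an equivalence. -/
def St_PGM : Prop := ∀ p : ℕ, p.Prime → p ≠ 2 →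
  ∃ M : Matrix (Fin (p ^ 2 + p + 1)) (Fin (p ^ 2 + p + 1)) ℤ, IsW p M

/-- **ODD**: `theorem t (h : St_PGM) : St_ODD`.
Proof. Strong induction on `a`: `a = 1`: `k = 1`, `M = 1`. Otherwise `a = p * b`, `p` an odd prime (for
example `p = a.minFac`), `b < a` odd. If `M` of order `k` belongs to `b` and `M'` of order
`k' = p ^ 2 + p + 1` to `p`, then the Kronecker product `M' ⊗ₖ M`, reindexed by `finProdFinEquiv`, belongs to
`a`: entries are products, symmetric, `(M' ⊗ M) * (M' ⊗ M) = M' ^ 2 ⊗ M ^ 2` (`Matrix.mul_kronecker_mul`).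
`k' * k` is odd (`p ^ 2 + p + 1` is odd as `p (p + 1)` is even), and `k' ≤ p ^ 3` as `p ≥ 3`, so
`k' * k ≤ p ^ 3 * b ^ 3`. -/
def St_ODD : Prop := ∀ a : ℕ, Odd a → ∃ k : ℕ, Odd k ∧ k ≤ a ^ 3 ∧
  ∃ M : Matrix (Fin k) (Fin k) ℤ, IsW a M

/-- **ARR** (Williamson array): `theorem t (h : St_ODD) : St_ARR`.
Proof. Take `M₁, …, M₄` of orders `k₁, …, k₄` from `St_ODD` for `a₁, …, a₄`, `κ = Fin k₁ × Fin k₂ × Fin k₃ ×
Fin k₄`, `k = k₁ k₂ k₃ k₄` (odd, `≤ (a₁ a₂ a₃ a₄) ^ 3`). On `κ` let `N₁ = M₁ ⊗ 1 ⊗ 1 ⊗ 1`, …,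
`N₄ = 1 ⊗ 1 ⊗ 1 ⊗ M₄`: symmetric, commuting, entries `0, ±1`, `N_m * N_m = a_m ^ 2`. The matrix on
`Fin 4 × κ` is the Williamson array
`[N₁ N₂ N₃ N₄; -N₂ N₁ -N₄ N₃; -N₃ N₄ N₁ -N₂; -N₄ -N₃ N₂ N₁]`, that is `A (u, x) (v, y) =
s u v * N (f u v) x y` with `f, s` given by these tables; `A Aᵀ = (a₁ ^ 2 + … + a₄ ^ 2) 1`: the block
`(u, v)` is `∑ t, s u t * s v t * N (f u t) * N (f v t)`, which is the sum of the squares if `u = v`
and cancels in pairs by commutativity if `u ≠ v` (16 cases). Zeros: the sum of the squares of a row of `A`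
is `a₁ ^ 2 + … + a₄ ^ 2 ≤ k₁ + … + k₄` (as `a_m ^ 2 = ∑ y, M_m x y ^ 2 ≤ k_m`), which is less than `4 k`
as `k₂ < k` because `k₁ ≥ a₁ ^ 2 > 1`, so not all `4 k` entries are nonzero. (Or: if `x, y : κ` differ in
the first coordinate then `N₂ x y = 0`.) Transport `κ ≃ Fin k`. -/
def St_ARR : Prop := ∀ a₁ a₂ a₃ a₄ : ℕ, Odd a₁ → Odd a₂ → Odd a₃ → Odd a₄ → 1 < a₁ →
  ∃ k : ℕ, Odd k ∧ k ≤ (a₁ * a₂ * a₃ * a₄) ^ 3 ∧
    ∃ A : Matrix (Fin 4 × Fin k) (Fin 4 × Fin k) ℤ, Tri A ∧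
      A * A.transpose = ((a₁ ^ 2 + a₂ ^ 2 + a₃ ^ 2 + a₄ ^ 2 : ℕ) : ℤ) •
        (1 : Matrix (Fin 4 × Fin k) (Fin 4 × Fin k) ℤ) ∧
      ∀ i, ∃ j, A i j = 0

/-- **FOUR** (four odd squares).
Proof. `u = x ^ 2 + y ^ 2 + z ^ 2 + t ^ 2` (`Nat.sum_four_squares`). The integers `x + y + z + t`,
`x + y - z - t`, `x - y + z - t`, `x - y - z + t` have the sum of squares `4 u` and all have the parity of
`x + y + z + t`, hence of `x ^ 2 + y ^ 2 + z ^ 2 + t ^ 2 = u`: odd. Take absolute values. One of them is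
greater than `1` as `4 u ≥ 12 > 4`; permute it to the first place. -/
def St_FOUR : Prop := ∀ u : ℕ, Odd u → 3 ≤ u → ∃ a₁ a₂ a₃ a₄ : ℕ, Odd a₁ ∧ Odd a₂ ∧ Odd a₃ ∧ Odd a₄ ∧
  1 < a₁ ∧ a₁ ^ 2 + a₂ ^ 2 + a₃ ^ 2 + a₄ ^ 2 = 4 * u

/-- **EMB** (every pattern occurs in a Sylvester matrix, with column product one).
Proof. Put `J = Fin 4 × Fin k`. First choose a sign matrix `K` on `J` with `K i j = - A i j` where
`A i j ≠ 0` and `∏ j, K i j = 1` for all `i` (in row `i` set the free entries to `1`, except one of them,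
`j₀ i` with `A i j₀ = 0`, which is the product of the other entries). Put `Z = J ⊕ Fin k ⊕ Bool`
(`card Z = 5 k + 2`), `X = Z → Bool`, `S x y = ∏ z, if x z && y z then -1 else 1` for `x, y : X`: the
Sylvester matrix of order `2 ^ (5 k + 2)`: `∑ y, S x y * S x' y = ∏ z, ∑ b : Bool, …` is
`2 ^ card Z` if `x = x'` and `0` otherwise (`Finset.prod_univ_sum` / `Fintype.piFinset_univ`).
`ρ i = indicator of inl i`; `γ j = the function with z = inl i ↦ (K i j = -1)`,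
`inr (inl b) ↦ (j.2 = b)`, `inr (inr false) ↦ (j.1 % 2 = 1)`, `inr (inr true) ↦ (2 ≤ j.1)`. Then
`S (ρ i) (γ j) = K i j`, `ρ` and `γ` are injective, and for every `x`: `∏ j, S x (γ j) =
∏ z, ∏ j, (if x z && γ j z then -1 else 1) = 1`, because for every `z` the number of `j` with
`γ j z = true` is even (for `z = inl i` as `∏ j, K i j = 1`; for `inr (inl b)` it is `4`; for
`inr (inr _)` it is `2 k`). Finally let `H` be a Hadamard matrix of order `N > 0` with `H 0 0 = 1` (change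
the sign of the matrix if necessary), `Ω = Fin N × X`, `E = H ⊗ₖ S`, `r i = (0, ρ i)`, `c j = (0, γ j)`:
`E (r i) (c j) = K i j`, `∏ j, E (a, x) (c j) = (H a 0) ^ (4 k) * ∏ j, S x (γ j) = 1`. -/
def St_EMB : Prop := ∀ (k N : ℕ) (A : Matrix (Fin 4 × Fin k) (Fin 4 × Fin k) ℤ), 0 < k → 0 < N →
  Tri A → (∀ i, ∃ j, A i j = 0) → HasHad N →
  ∃ (Ω : Type) (_ : Fintype Ω) (_ : DecidableEq Ω) (E : Matrix Ω Ω ℤ) (r c : Fin 4 × Fin k → Ω),
    Fintype.card Ω = 2 ^ (5 * k + 2) * N ∧ Sgn E ∧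
    E * E.transpose = (Fintype.card Ω : ℤ) • (1 : Matrix Ω Ω ℤ) ∧
    Function.Injective r ∧ Function.Injective c ∧
    (∀ i j, A i j ≠ 0 → E (r i) (c j) = - A i j) ∧ ∀ x, ∏ j, E x (c j) = 1

/-- **BLOW** (the blow-up).
Proof. Put `L = card J`, `N = card Ω`, `K i j = E (r i) (c j)`. Rows of the new matrix:
`{x : Ω // x ∉ Set.range r} ⊕ (J × Fin v)`, columns `{y : Ω // y ∉ Set.range c} ⊕ (J × Fin v)`; both have
`N - L + L v = N + L (v - 1)` elements (take two equivalences with `Fin (N + L (v - 1))` at the end;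
inner products of rows are sums over the columns). Entries: `H (inl x) (inl y) = E x y`,
`H (inl x) (inr (j, b)) = E x (c j)`, `H (inr (i, a)) (inl y) = E (r i) y`,
`H (inr (i, a)) (inr (j, b)) = K i j + 2 * A i j * (if a = b then 0 else 1)`, which is `±1` (if `A i j = 0` it
is `K i j`; otherwise `K i j = - A i j`). Let `G i j = K i j + 2 * A i j` (a sign: `K i j` or `A i j`).
Inner products (always `∑ y ∉ range c, f y + ∑ j, f (c j) = ∑ y : Ω, f y`):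
`inl x, inl x'` (distinct): `0 + (v - 1) * ∑ j, E x (c j) * E x' (c j)`;
`inl x, inr (i, a)`: `0 + (v - 1) * ∑ j, E x (c j) * G i j` (as `∑ b, (G - 2 A [a = b]) = v G - 2 A` and
`v G - 2 A = K + (v - 1) G`);
`inr (i, a), inr (i', a')`: `∑ y, E (r i) y * E (r i') y + (v - 1) * ∑ j, G i j * G i' j
- 4 * (if a = a' then 0 else 1) * ∑ j, A i j * A i' j`; here, for `i ≠ i'`, the first and the last sum
are `0`, and for `i = i'`, `a ≠ a'` this is `N + (v - 1) L - 4 w`.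
All are divisible by `d` as `d ∣ v - 1` and `d ∣ N - 4 w`. They are divisible by `4`: a sum of `L`
(`4 ∣ L`) signs with product `1` is divisible by `4`, `∏ j, E x (c j) = 1`, and
`∏ j, G i j = ∏ j, K i j * (-1) ^ #{j | A i j ≠ 0} = 1` as `#{j | A i j ≠ 0} = ∑ j, A i j ^ 2 = w` is even;
`4 ∣ N`, `4 ∣ L`. As `d` is odd, `4 * d` divides them. -/
def St_BLOW : Prop := ∀ (J Ω : Type) [Fintype J] [DecidableEq J] [Fintype Ω] [DecidableEq Ω]
  (E : Matrix Ω Ω ℤ) (A : Matrix J J ℤ) (r c : J → Ω) (w d v : ℕ), Tri A →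
  A * A.transpose = (w : ℤ) • (1 : Matrix J J ℤ) → Sgn E →
  E * E.transpose = (Fintype.card Ω : ℤ) • (1 : Matrix Ω Ω ℤ) →
  Function.Injective r → Function.Injective c →
  (∀ i j, A i j ≠ 0 → E (r i) (c j) = - A i j) → (∀ x, ∏ j, E x (c j) = 1) →
  4 ∣ Fintype.card J → 4 ∣ Fintype.card Ω → Even w → Odd d → 1 ≤ v → (d : ℤ) ∣ (v : ℤ) - 1 →
  (d : ℤ) ∣ (Fintype.card Ω : ℤ) - 4 * w →
  HasMod (4 * d) (Fintype.card Ω + Fintype.card J * (v - 1))

/-- **SIZE** (real analysis).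
Proof. With `ℓ = log n` large: `d ≤ ℓ ^ (1 / 8)`, `B = (8 d + 12) ^ 6 ≤ (20 ℓ ^ (1 / 8)) ^ 6 =
20 ^ 6 ℓ ^ (3 / 4)`, so `5 B + 2 ≤ ℓ / 4` and `B d ≤ 20 ^ 6 ℓ ≤ …`; hence
`log₂` of the left side is at most `log₂ (4 B d) + 5 B + 2 + 2 log₂ ℓ ≤ ℓ / 2 + … ≤ ℓ ≤ log₂ n`. -/
def St_SIZE : Prop := ∃ n₀ : ℕ, ∀ n k d : ℕ, n₀ ≤ n → (2 : ℝ) ^ k ≤ Real.log n → 1 ≤ d →
  (d : ℝ) ≤ (Real.log n) ^ (1 / 8 : ℝ) →
  (4 * ((8 * d + 12) ^ 6 * d * 2 ^ (5 * (8 * d + 12) ^ 6 + k + 2)) * 2 ^ k : ℕ) ≤ n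

end Pool.Agent.H29MM
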