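import Mathlib
import Pool.Agent.H29MM.Stm

/-!
# Project MM: the core (one large order, modulus `4 * d`)
-/

set_option autoImplicit false

namespace Pool.Agent.H29MM

open Matrix

/-- the choice of the weight -/
theorem exists_u (n₁ d : ℕ) (hd : Odd d) : ∃ u : ℕ, Odd u ∧ 3 ≤ u ∧ u < 2 * d + 3 ∧
    (d : ℤ) ∣ (n₁ : ℤ) - 16 * u := by
  have hd0 : NeZero d := ⟨by rcases hd with ⟨c, hc⟩; omega⟩
  have hcop : Nat.Coprime 32 d := by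
    have : (32 : ℕ) = 2 ^ 5 := by norm_num
    rw [this]
    exact Nat.Coprime.pow_left _ (Nat.coprime_two_left.2 hd)
  have hu : IsUnit ((32 : ℕ) : ZMod d) := (ZMod.isUnit_iff_coprime 32 d).2 hcop
  obtain ⟨c, hc⟩ := hu.exists_right_inv
  refine ⟨2 * (c * ((n₁ : ZMod d) - 48)).val + 3, ⟨(c * ((n₁ : ZMod d) - 48)).val + 1, by ring⟩, by omega, ?_, ?_⟩
  · have := ZMod.val_lt (c * ((n₁ : ZMod d) - 48))
    omega
  · rw [← ZMod.intCast_zmod_eq_zero_iff_dvd]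
    push_cast
    rw [ZMod.natCast_zmod_val]
    have h2 : (n₁ : ZMod d) - 16 * (2 * (c * ((n₁ : ZMod d) - 48)) + 3) =
        (1 - ((32 : ℕ) : ZMod d) * c) * ((n₁ : ZMod d) - 48) := by push_cast; ring
    rw [h2, hc]
    ring

/-- the choice of the number of copies -/
theorem exists_g (m s T : ℕ) (hs : Odd s) (hm : s * 2 ^ T ≤ m) : ∃ g l : ℕ, 0 < l ∧ m = s * g + 2 ^ T * l := by
  have h2 : NeZero (2 ^ T) := ⟨by positivity⟩
  have hcop : Nat.Coprime s (2 ^ T) := (Nat.Coprime.pow_left T (Nat.coprime_two_left.2 hs)).symm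
  have hu : IsUnit ((s : ℕ) : ZMod (2 ^ T)) := (ZMod.isUnit_iff_coprime s (2 ^ T)).2 hcop
  obtain ⟨c, hc⟩ := hu.exists_right_inv
  set g : ℕ := (c * (m : ZMod (2 ^ T))).val with hg
  have hglt : g < 2 ^ T := ZMod.val_lt _
  have hs0 : 0 < s := by rcases hs with ⟨c, hc⟩; omega
  have hlt : s * g < m := lt_of_lt_of_le (Nat.mul_lt_mul_of_pos_left hglt hs0) hm
  have hdvd : 2 ^ T ∣ m - s * g := by
    rw [← ZMod.natCast_eq_zero_iff, Nat.cast_sub hlt.le, Nat.cast_mul, hg, ZMod.natCast_zmod_val,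
      ← mul_assoc, hc]
    ring
  obtain ⟨l, hl⟩ := hdvd
  refine ⟨g, l, ?_, by omega⟩
  rcases Nat.eq_zero_or_pos l with h0 | h0
  · rw [h0] at hl; omega
  · exact h0

theorem prod_bound (a₁ a₂ a₃ a₄ w : ℕ) (h : a₁ ^ 2 + a₂ ^ 2 + a₃ ^ 2 + a₄ ^ 2 = w) :
    a₁ * a₂ * a₃ * a₄ ≤ w ^ 2 := by
  have h12 : a₁ * a₂ ≤ w := by nlinarith [sq_nonneg ((a₁ : ℤ) - a₂), sq_nonneg ((a₁ : ℤ)), sq_nonneg (a₃ : ℤ), two_mul_le_add_sq a₁ a₂]
  have h34 : a₃ * a₄ ≤ w := by nlinarith [two_mul_le_add_sq a₃ a₄]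
  calc a₁ * a₂ * a₃ * a₄ = (a₁ * a₂) * (a₃ * a₄) := by ring
    _ ≤ w * w := Nat.mul_le_mul h12 h34
    _ = w ^ 2 := by ring

theorem core (hARR : St_ARR) (hFOUR : St_FOUR) (hEMB : St_EMB) (hBLOW : St_BLOW)
    (n₁ k d : ℕ) (h4 : 4 ∣ n₁) (hd : Odd d) (hHad : ∀ l : ℕ, l ≤ n₁ → HasHad (2 ^ k * l))
    (hsize : 4 * ((8 * d + 12) ^ 6 * d * 2 ^ (5 * (8 * d + 12) ^ 6 + k + 2)) ≤ n₁) :
    HasMod (4 * d) n₁ := by
  obtain ⟨u, hu, hu3, hud, hun⟩ := exists_u n₁ d hd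
  obtain ⟨a₁, a₂, a₃, a₄, ho1, ho2, ho3, ho4, h1, hsum⟩ := hFOUR u hu hu3
  obtain ⟨κ, hκ, hκle, A, hA, hAA, hA0⟩ := hARR a₁ a₂ a₃ a₄ ho1 ho2 ho3 ho4 h1
  have hd1 : 1 ≤ d := by rcases hd with ⟨c, hc⟩; omega
  have hκ1 : 0 < κ := by rcases hκ with ⟨c, hc⟩; omega
  have hκB : κ ≤ (8 * d + 12) ^ 6 := by
    refine hκle.trans ?_
    have e1 := prod_bound a₁ a₂ a₃ a₄ (4 * u) hsum
    calc (a₁ * a₂ * a₃ * a₄) ^ 3 ≤ ((4 * u) ^ 2) ^ 3 := Nat.pow_le_pow_left e1 3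
      _ = (4 * u) ^ 6 := by ring
      _ ≤ (8 * d + 12) ^ 6 := Nat.pow_le_pow_left (by omega) 6
  obtain ⟨m, rfl⟩ := h4
  have hB : κ * d * 2 ^ (5 * κ + k) ≤ m := by
    have e1 : κ * d * 2 ^ (5 * κ + k) ≤ (8 * d + 12) ^ 6 * d * 2 ^ (5 * (8 * d + 12) ^ 6 + k + 2) := by
      refine Nat.mul_le_mul (Nat.mul_le_mul_right _ hκB) (Nat.pow_le_pow_right (by norm_num) ?_)
      omega
    omega
  obtain ⟨g, l, hl0, hm⟩ := exists_g m (κ * d) (5 * κ + k) (hκ.mul hd) hB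
  have hl : l ≤ 4 * m := by
    have e1 : 1 ≤ 2 ^ (5 * κ + k) := Nat.one_le_two_pow
    have e2 : l ≤ 2 ^ (5 * κ + k) * l := Nat.le_mul_of_pos_left _ e1
    omega
  obtain ⟨Ω, i1, i2, E, r, c, hcard, hE, hEE, hr, hc, hEA, hprod⟩ :=
    hEMB κ (2 ^ k * l) A hκ1 (by positivity) hA hA0 (hHad l hl)
  have hJ : Fintype.card (Fin 4 × Fin κ) = 4 * κ := by simp
  have hN : Fintype.card Ω + 4 * (κ * d * g) = 4 * m := by
    rw [hcard, hm]; ring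
  have key := hBLOW (Fin 4 × Fin κ) Ω E A r c (a₁ ^ 2 + a₂ ^ 2 + a₃ ^ 2 + a₄ ^ 2) d (1 + d * g) hA hAA hE
    hEE hr hc hEA hprod (by rw [hJ]; exact Dvd.intro _ rfl)
    (by rw [hcard, pow_add]; exact Dvd.dvd.mul_right (Dvd.dvd.mul_left (by norm_num) _) _)
    (by rw [hsum]; exact ⟨2 * u, by ring⟩) hd (by omega)
    (by push_cast; exact ⟨g, by ring⟩)
    (by
      obtain ⟨q, hq⟩ := hun
      refine ⟨q - 4 * κ * g, ?_⟩
      have e1 : (Fintype.card Ω : ℤ) = 4 * m - 4 * (κ * d * g) := by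
        have : ((Fintype.card Ω + 4 * (κ * d * g) : ℕ) : ℤ) = ((4 * m : ℕ) : ℤ) := by rw [hN]
        push_cast at this
        linarith
      rw [e1, hsum]
      push_cast at hq ⊢
      linarith)
  have e2 : Fintype.card Ω + Fintype.card (Fin 4 × Fin κ) * (1 + d * g - 1) = 4 * m := by
    rw [hJ, ← hN]
    have : 1 + d * g - 1 = d * g := by omega
    rw [this]; ring
  rw [e2] at key
  exact key

end Pool.Agent.H29MM
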