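import Pool.Agent.H29MM.Stm

set_option autoImplicit false

namespace Pool.Agent.H29MM.EMB

open Finset Matrix
open Pool.Agent.H29MM

/-- one factor of the Sylvester matrix -/
def sg (u v : Bool) : ℤ := if u && v then -1 else 1

lemma sg_sign (u v : Bool) : sg u v = 1 ∨ sg u v = -1 := by
  cases u <;> cases v <;> simp [sg]

lemma sg_sum (u v : Bool) : ∑ b : Bool, sg u b * sg v b = if u = v then 2 else 0 := by
  cases u <;> cases v <;> simp [sg]

def Syl {Z : Type} [Fintype Z] (x y : Z → Bool) : ℤ := ∏ z, sg (x z) (y z)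

lemma prod_sign {ι : Type} (s : Finset ι) (f : ι → ℤ) (h : ∀ i ∈ s, f i = 1 ∨ f i = -1) :
    ∏ i ∈ s, f i = 1 ∨ ∏ i ∈ s, f i = -1 := by
  classical
  induction s using Finset.induction_on with
  | empty => simp
  | insert a s ha ih =>
    rw [prod_insert ha]
    rcases h a (mem_insert_self _ _) with h1 | h1 <;>
    rcases ih (fun i hi => h i (mem_insert_of_mem hi)) with h2 | h2 <;> rw [h1, h2] <;> norm_num

lemma syl_sign {Z : Type} [Fintype Z] (x y : Z → Bool) : Syl x y = 1 ∨ Syl x y = -1 :=
  prod_sign _ _ fun _ _ => sg_sign _ _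

lemma syl_orth {Z : Type} [Fintype Z] [DecidableEq Z] (x x' : Z → Bool) :
    ∑ y : Z → Bool, Syl x y * Syl x' y = if x = x' then 2 ^ Fintype.card Z else 0 := by
  unfold Syl
  have h1 : ∑ y : Z → Bool, (∏ z, sg (x z) (y z)) * ∏ z, sg (x' z) (y z) =
      ∏ z, ∑ b : Bool, sg (x z) b * sg (x' z) b := by
    rw [prod_univ_sum, Fintype.piFinset_univ]
    refine sum_congr rfl fun y _ => ?_
    rw [prod_mul_distrib]
  rw [h1]
  simp only [sg_sum]
  split_ifs with h
  · subst h
    simp
  · obtain ⟨z, hz⟩ := Function.ne_iff.1 h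
    exact prod_eq_zero (mem_univ z) (if_neg hz)

lemma exK {J : Type} [Fintype J] [DecidableEq J] (A : Matrix J J ℤ) (hA : Tri A) (h0 : ∀ i, ∃ j, A i j = 0) :
    ∃ K : J → J → ℤ, (∀ i j, K i j = 1 ∨ K i j = -1) ∧ (∀ i j, A i j ≠ 0 → K i j = - A i j) ∧
      ∀ i, ∏ j, K i j = 1 := by
  choose j0 hj0 using h0
  set g : J → J → ℤ := fun i j => if A i j = 0 then 1 else - A i j with hg
  have hgs : ∀ i j, g i j = 1 ∨ g i j = -1 := by
    intro i j
    simp only [hg]
    rcases hA i j with h | h | h
    · left; rw [if_pos h]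
    · right; rw [if_neg (by rw [h]; norm_num), h]
    · left; rw [if_neg (by rw [h]; norm_num), h]; norm_num
  set P : J → ℤ := fun i => ∏ j, g i j with hP
  have hPs : ∀ i, P i = 1 ∨ P i = -1 := fun i => prod_sign _ _ fun j _ => hgs i j
  refine ⟨fun i j => g i j * (if j = j0 i then P i else 1), ?_, ?_, ?_⟩
  · intro i j
    dsimp only
    split_ifs
    · rcases hgs i j with h1 | h1 <;> rcases hPs i with h2 | h2 <;> rw [h1, h2] <;> norm_num
    · rw [mul_one]; exact hgs i j
  · intro i j hij
    dsimp only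
    have hne : j ≠ j0 i := fun h => hij (h ▸ hj0 i)
    rw [if_neg hne, mul_one]
    simp only [hg]
    rw [if_neg hij]
  · intro i
    dsimp only
    rw [prod_mul_distrib, prod_ite_eq' univ (j0 i) (fun _ => P i), if_pos (mem_univ _)]
    change P i * P i = 1
    rcases hPs i with h | h <;> rw [h] <;> norm_num

theorem t : St_EMB := by
  intro k N A hk hN hA h0 hHad
  obtain ⟨H, hHs, hHH⟩ := hHad
  obtain ⟨K, hKs, hKA, hKp⟩ := exK A hA h0
  classical
  let e0 : Fin N := ⟨0, hN⟩
  let Z := (Fin 4 × Fin k) ⊕ (Fin k ⊕ Bool)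
  let ρ : Fin 4 × Fin k → Z → Bool := fun i z => decide (z = Sum.inl i)
  let γ : Fin 4 × Fin k → Z → Bool := fun j z =>
    match z with
    | Sum.inl i => decide (K i j = -1)
    | Sum.inr (Sum.inl b) => decide (j.2 = b)
    | Sum.inr (Sum.inr false) => decide (j.1.val % 2 = 1)
    | Sum.inr (Sum.inr true) => decide (2 ≤ j.1.val)
  have hcZ : Fintype.card Z = 5 * k + 2 := by
    simp only [Z, Fintype.card_sum, Fintype.card_prod, Fintype.card_fin, Fintype.card_bool]
    ring
  have hρ : Function.Injective ρ := by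
    intro i i' h
    have h1 := congrFun h (Sum.inl i)
    simp only [ρ, decide_true] at h1
    have h2 := of_decide_eq_true h1.symm
    exact Sum.inl_injective h2
  have hγ : Function.Injective γ := by
    intro j j' h
    have h1 := congrFun h (Sum.inr (Sum.inl j'.2))
    have h2 := congrFun h (Sum.inr (Sum.inr false))
    have h3 := congrFun h (Sum.inr (Sum.inr true))
    simp only [γ, decide_true] at h1 h2 h3
    have h1' := of_decide_eq_true h1
    have h2' := decide_eq_decide.1 h2
    have h3' := decide_eq_decide.1 h3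
    refine Prod.ext (Fin.ext ?_) h1'
    have a1 := j.1.isLt
    have a2 := j'.1.isLt
    omega
  have hSK : ∀ i j, Syl (ρ i) (γ j) = K i j := by
    intro i j
    unfold Syl
    rw [prod_eq_single (Sum.inl i : Z)]
    · have e1 : ρ i (Sum.inl i) = true := by simp [ρ]
      have e2 : γ j (Sum.inl i) = decide (K i j = -1) := rfl
      rw [e1, e2]
      rcases hKs i j with h | h
      · rw [h]; simp [sg]
      · rw [h]; simp [sg]
    · intro z _ hz
      have e1 : ρ i z = false := by simp only [ρ, decide_eq_false_iff_not]; exact hz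
      rw [e1]
      simp [sg]
    · intro h; exact absurd (mem_univ _) h
  have hprod : ∀ x : Z → Bool, ∏ j, Syl x (γ j) = 1 := by
    intro x
    unfold Syl
    rw [prod_comm]
    refine prod_eq_one fun z _ => ?_
    cases hx : x z with
    | false => simp [sg]
    | true =>
      have hs : ∀ b : Bool, sg true b = if b then -1 else 1 := by intro b; simp [sg]
      simp only [hs]
      match z with
      | Sum.inl i =>
        refine Eq.trans (prod_congr rfl fun j _ => ?_) (hKp i)
        have e2 : γ j (Sum.inl i) = decide (K i j = -1) := rfl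
        rw [e2]
        rcases hKs i j with h | h <;> rw [h] <;> simp
      | Sum.inr (Sum.inl b) =>
        have e2 : ∀ j : Fin 4 × Fin k, γ j (Sum.inr (Sum.inl b)) = decide (j.2 = b) := fun j => rfl
        simp only [e2, decide_eq_true_eq]
        rw [Fintype.prod_prod_type]
        have : ∀ u : Fin 4, ∏ v : Fin k, (if ((u, v) : Fin 4 × Fin k).2 = b then (-1 : ℤ) else 1) = -1 := by
          intro u
          rw [prod_ite_eq' univ b (fun _ => (-1 : ℤ)), if_pos (mem_univ _)]
        simp only [this]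
        simp
      | Sum.inr (Sum.inr false) =>
        have e2 : ∀ j : Fin 4 × Fin k, γ j (Sum.inr (Sum.inr false)) = decide (j.1.val % 2 = 1) := fun j => rfl
        simp only [e2, decide_eq_true_eq]
        rw [Fintype.prod_prod_type]
        have h4 : ∀ u : Fin 4, (∏ v : Fin k, if ((u, v) : Fin 4 × Fin k).1.val % 2 = 1 then (-1 : ℤ) else 1) =
            (if u.val % 2 = 1 then (-1 : ℤ) else 1) ^ k := fun u => by
          by_cases h : u.val % 2 = 1 <;> simp [h]
        rw [prod_congr rfl fun u _ => h4 u, prod_pow]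
        have : ∏ u : Fin 4, (if u.val % 2 = 1 then (-1 : ℤ) else 1) = 1 := by decide
        rw [this, one_pow]
      | Sum.inr (Sum.inr true) =>
        have e2 : ∀ j : Fin 4 × Fin k, γ j (Sum.inr (Sum.inr true)) = decide (2 ≤ j.1.val) := fun j => rfl
        simp only [e2, decide_eq_true_eq]
        rw [Fintype.prod_prod_type]
        have h4 : ∀ u : Fin 4, (∏ v : Fin k, if 2 ≤ ((u, v) : Fin 4 × Fin k).1.val then (-1 : ℤ) else 1) =
            (if 2 ≤ u.val then (-1 : ℤ) else 1) ^ k := fun u => by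
          by_cases h : 2 ≤ u.val <;> simp [h]
        rw [prod_congr rfl fun u _ => h4 u, prod_pow]
        have : ∏ u : Fin 4, (if 2 ≤ u.val then (-1 : ℤ) else 1) = 1 := by decide
        rw [this, one_pow]
  let E : Matrix (Fin N × (Z → Bool)) (Fin N × (Z → Bool)) ℤ := fun p q => H e0 e0 * H p.1 q.1 * Syl p.2 q.2
  have hH0 : H e0 e0 * H e0 e0 = 1 := by
    rcases hHs e0 e0 with h | h <;> rw [h] <;> norm_num
  have hHsum : ∀ a a' : Fin N, ∑ b, H a b * H a' b = if a = a' then (N : ℤ) else 0 := by
    intro a a'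
    have := congrFun (congrFun hHH a) a'
    rw [Matrix.mul_apply] at this
    simp only [Matrix.transpose_apply, Matrix.smul_apply, Matrix.one_apply, smul_eq_mul] at this
    rw [this]
    split_ifs <;> simp
  have hcard : Fintype.card (Fin N × (Z → Bool)) = 2 ^ (5 * k + 2) * N := by
    rw [Fintype.card_prod, Fintype.card_fin, Fintype.card_fun, Fintype.card_bool, hcZ]
    ring
  refine ⟨Fin N × (Z → Bool), inferInstance, inferInstance, E, fun i => (e0, ρ i), fun j => (e0, γ j),
    hcard, ?_, ?_, ?_, ?_, ?_, ?_⟩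
  · intro p q
    simp only [E]
    rcases hHs e0 e0 with h1 | h1 <;> rcases hHs p.1 q.1 with h2 | h2 <;>
      rcases syl_sign p.2 q.2 with h3 | h3 <;> rw [h1, h2, h3] <;> norm_num
  · ext p q
    rw [Matrix.mul_apply, Matrix.smul_apply, Matrix.one_apply, smul_eq_mul]
    change ∑ x : Fin N × (Z → Bool), H e0 e0 * H p.1 x.1 * Syl p.2 x.2 * (H e0 e0 * H q.1 x.1 * Syl q.2 x.2) = _
    have h1 : ∑ x : Fin N × (Z → Bool), H e0 e0 * H p.1 x.1 * Syl p.2 x.2 * (H e0 e0 * H q.1 x.1 * Syl q.2 x.2) =
        (∑ b, H p.1 b * H q.1 b) * ∑ y : Z → Bool, Syl p.2 y * Syl q.2 y := by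
      rw [Fintype.sum_prod_type, sum_mul_sum]
      refine sum_congr rfl fun b _ => sum_congr rfl fun y _ => ?_
      calc H e0 e0 * H p.1 b * Syl p.2 y * (H e0 e0 * H q.1 b * Syl q.2 y)
          = (H e0 e0 * H e0 e0) * (H p.1 b * H q.1 b * (Syl p.2 y * Syl q.2 y)) := by ring
        _ = _ := by rw [hH0, one_mul]
    rw [h1, hHsum, syl_orth, hcard, hcZ]
    by_cases hpq : p = q
    · subst hpq
      simp
      ring
    · rw [if_neg hpq]
      by_cases hp : p.1 = q.1
      · have : p.2 ≠ q.2 := fun h => hpq (Prod.ext hp h)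
        rw [if_neg this]; simp
      · rw [if_neg hp]; simp
  · intro i i' h
    exact hρ (Prod.ext_iff.1 h).2
  · intro j j' h
    exact hγ (Prod.ext_iff.1 h).2
  · intro i j hij
    simp only [E]
    rw [hSK, hH0, one_mul]
    exact hKA i j hij
  · intro p
    simp only [E]
    rw [prod_mul_distrib, hprod, mul_one, prod_const, card_univ, Fintype.card_prod, Fintype.card_fin, Fintype.card_fin,
      pow_mul]
    have : (H e0 e0 * H p.1 e0) ^ 4 = 1 := by
      rcases hHs e0 e0 with h1 | h1 <;> rcases hHs p.1 e0 with h2 | h2 <;> rw [h1, h2] <;> norm_num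
    rw [this, one_pow]

end Pool.Agent.H29MM.EMB
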