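import Pool.Agent.H29MM.Stm

/-!
# Stub FOUR of project MM: four odd squares
-/

set_option autoImplicit false

namespace Pool.Agent.H29MM.FOUR

theorem core (a b c d : ℤ) (u : ℕ) (hu : Odd u) (h3 : 3 ≤ u)
    (h : a ^ 2 + b ^ 2 + c ^ 2 + d ^ 2 = 4 * (u : ℤ)) (ha : Odd a) (hb : Odd b) (hc : Odd c)
    (hd : Odd d) : ∃ a₁ a₂ a₃ a₄ : ℕ, Odd a₁ ∧ Odd a₂ ∧ Odd a₃ ∧ Odd a₄ ∧
  1 < a₁ ∧ a₁ ^ 2 + a₂ ^ 2 + a₃ ^ 2 + a₄ ^ 2 = 4 * u := by
  have hna : Odd a.natAbs := Int.natAbs_odd.2 ha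
  have hnb : Odd b.natAbs := Int.natAbs_odd.2 hb
  have hnc : Odd c.natAbs := Int.natAbs_odd.2 hc
  have hnd : Odd d.natAbs := Int.natAbs_odd.2 hd
  have hs : a.natAbs ^ 2 + b.natAbs ^ 2 + c.natAbs ^ 2 + d.natAbs ^ 2 = 4 * u := by
    have : ((a.natAbs ^ 2 + b.natAbs ^ 2 + c.natAbs ^ 2 + d.natAbs ^ 2 : ℕ) : ℤ)
        = ((4 * u : ℕ) : ℤ) := by
      push_cast
      simp only [sq_abs]
      exact h
    exact_mod_cast this
  generalize a.natAbs = p at *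
  generalize b.natAbs = q at *
  generalize c.natAbs = r at *
  generalize d.natAbs = s at *
  by_cases h1 : 1 < p
  · exact ⟨p, q, r, s, hna, hnb, hnc, hnd, h1, hs⟩
  by_cases h2 : 1 < q
  · exact ⟨q, p, r, s, hnb, hna, hnc, hnd, h2, by omega⟩
  by_cases h3' : 1 < r
  · exact ⟨r, q, p, s, hnc, hnb, hna, hnd, h3', by omega⟩
  by_cases h4 : 1 < s
  · exact ⟨s, q, r, p, hnd, hnb, hnc, hna, h4, by omega⟩
  exfalso
  have e1 : p ≤ 1 := by omega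
  have e2 : q ≤ 1 := by omega
  have e3 : r ≤ 1 := by omega
  have e4 : s ≤ 1 := by omega
  have f1 : p ^ 2 ≤ 1 := (Nat.pow_le_pow_left e1 2).trans (by norm_num)
  have f2 : q ^ 2 ≤ 1 := (Nat.pow_le_pow_left e2 2).trans (by norm_num)
  have f3 : r ^ 2 ≤ 1 := (Nat.pow_le_pow_left e3 2).trans (by norm_num)
  have f4 : s ^ 2 ≤ 1 := (Nat.pow_le_pow_left e4 2).trans (by norm_num)
  omega

theorem t : St_FOUR := by
  intro u hu h3
  obtain ⟨x, y, z, w, h⟩ := Nat.sum_four_squares u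
  have hpar : Odd ((x : ℤ) + y + z + w) := by
    have h1 : Odd ((x : ℤ) ^ 2 + y ^ 2 + z ^ 2 + w ^ 2) := by
      have : ((x : ℤ) ^ 2 + y ^ 2 + z ^ 2 + w ^ 2) = (u : ℤ) := by exact_mod_cast h
      rw [this]
      exact_mod_cast hu
    have h2 : Even (((x : ℤ) ^ 2 + y ^ 2 + z ^ 2 + w ^ 2) - ((x : ℤ) + y + z + w)) := by
      have e : ((x : ℤ) ^ 2 + y ^ 2 + z ^ 2 + w ^ 2) - ((x : ℤ) + y + z + w)
          = ((x : ℤ) - 1) * ((x - 1) + 1) + ((y : ℤ) - 1) * ((y - 1) + 1)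
            + ((z : ℤ) - 1) * ((z - 1) + 1) + ((w : ℤ) - 1) * ((w - 1) + 1) := by ring
      rw [e]
      exact (((Int.even_mul_succ_self _).add (Int.even_mul_succ_self _)).add
        (Int.even_mul_succ_self _)).add (Int.even_mul_succ_self _)
    have h3 : ((x : ℤ) + y + z + w)
        = ((x : ℤ) ^ 2 + y ^ 2 + z ^ 2 + w ^ 2)
          - (((x : ℤ) ^ 2 + y ^ 2 + z ^ 2 + w ^ 2) - ((x : ℤ) + y + z + w)) := by ring
    rw [h3]
    exact h1.sub_even h2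
  refine core ((x : ℤ) + y + z + w) ((x : ℤ) + y - z - w) ((x : ℤ) - y + z - w)
    ((x : ℤ) - y - z + w) u hu h3 ?_ hpar ?_ ?_ ?_
  · have : ((x : ℤ) ^ 2 + y ^ 2 + z ^ 2 + w ^ 2) = (u : ℤ) := by exact_mod_cast h
    rw [← this]
    ring
  · have e : (x : ℤ) + y - z - w = ((x : ℤ) + y + z + w) - 2 * ((z : ℤ) + w) := by ring
    rw [e]
    exact hpar.sub_even (even_two_mul _)
  · have e : (x : ℤ) - y + z - w = ((x : ℤ) + y + z + w) - 2 * ((y : ℤ) + w) := by ring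
    rw [e]
    exact hpar.sub_even (even_two_mul _)
  · have e : (x : ℤ) - y - z + w = ((x : ℤ) + y + z + w) - 2 * ((y : ℤ) + z) := by ring
    rw [e]
    exact hpar.sub_even (even_two_mul _)

end Pool.Agent.H29MM.FOUR
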