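import Mathlib
import Pool.Agent.H29MM.Core
import Pool.Agent.N328.PH.Growth
import Pool.Agent.W930.MH.Had

/-!
# Project MM: assembly
-/

set_option autoImplicit false

namespace Pool.Agent.H29MM

open Matrix

theorem lift_le {k b l : ℕ} (h : Pool.Agent.H108R3.Had.PUk k l) (hkb : k ≤ b) : Pool.Agent.H108R3.Had.PUk b l := by
  induction b, hkb using Nat.le_induction with
  | base => exact h
  | succ b _ ih => exact Pool.Agent.H108R3.Had.lift b l ih

theorem hasHad_of_PUk {k l : ℕ} (h : Pool.Agent.H108R3.Had.PUk k l) : HasHad (2 ^ k * l) := by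
  obtain ⟨H, h1, h2⟩ := Pool.Agent.H108R3.Had.t_P7 k l h
  exact ⟨H, h1, h2⟩

theorem double {m : ℤ} {n : ℕ} (h : HasMod m n) : ∀ b : ℕ, HasMod (2 ^ b * m) (2 ^ b * n) := by
  intro b
  induction b with
  | zero => simpa using h
  | succ b ih =>
    obtain ⟨H, h1, h2⟩ := Pool.Agent.W930.MH.had.2.2 (2 ^ b * m) (2 ^ b * n) (by
      obtain ⟨H, h1, h2⟩ := ih
      exact ⟨H, h1, h2⟩)
    have e1 : 2 ^ (b + 1) * n = 2 * (2 ^ b * n) := by ring
    have e2 : (2 : ℤ) ^ (b + 1) * m = 2 * (2 ^ b * m) := by ring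
    rw [e1, e2]
    exact ⟨H, h1, h2⟩

/-- Modular Hadamard matrices for all odd moduli. -/
theorem main (hARR : St_ARR) (hFOUR : St_FOUR) (hEMB : St_EMB) (hBLOW : St_BLOW) (hSIZE : St_SIZE) :
    ∃ n₀ : ℕ, ∀ n : ℕ, n₀ ≤ n → ∀ a d : ℕ, 2 ≤ a → 2 ^ a ∣ n → Odd d →
      (d : ℝ) ≤ (Real.log n) ^ (1 / 8 : ℝ) →
      ∃ H : Matrix (Fin n) (Fin n) ℤ, (∀ i j, H i j = 1 ∨ H i j = -1) ∧
        ∀ i j, i ≠ j → ((2 ^ a * d : ℕ) : ℤ) ∣ (H * H.transpose) i j := by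
  obtain ⟨n₁, hn₁⟩ := Pool.Agent.N328.PH.growth
  obtain ⟨n₂, hn₂⟩ := hSIZE
  refine ⟨max n₁ n₂, fun n hn a d ha han hd hdn => ?_⟩
  obtain ⟨k, hk, hklog⟩ := hn₁ n (le_trans (le_max_left _ _) hn)
  have hd1 : 1 ≤ d := by rcases hd with ⟨c, hc⟩; omega
  have hk2 : (2 : ℝ) ^ k ≤ Real.log n := by
    refine le_trans ?_ hklog
    have e1 : k ≤ 5 * 2 ^ (k + 2) - 1 := by
      have : k + 2 < 2 ^ (k + 2) := Nat.lt_two_pow_self
      omega
    exact_mod_cast Nat.pow_le_pow_right (n := 2) (by norm_num) e1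
  have hsz := hn₂ n k d (le_trans (le_max_right _ _) hn) hk2 hd1 hdn
  obtain ⟨b, rfl⟩ : ∃ b, a = b + 2 := ⟨a - 2, by omega⟩
  obtain ⟨q, hq⟩ := han
  have hn4 : n = 2 ^ b * (4 * q) := by rw [hq]; ring
  have hnpos : 0 < n := by
    refine lt_of_lt_of_le ?_ hsz
    positivity
  have hqn : 4 * q ≤ n := by
    rw [hn4]
    exact Nat.le_mul_of_pos_left _ (by positivity)
  rcases le_or_gt k b with hkb | hkb
  · -- a Hadamard matrix
    have h1 := hasHad_of_PUk (lift_le (hk (4 * q) hqn) hkb)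
    rw [← hn4] at h1
    obtain ⟨H, h2, h3⟩ := h1
    refine ⟨H, h2, fun i j hij => ?_⟩
    rw [h3, Matrix.smul_apply, Matrix.one_apply_ne hij, smul_zero]
    exact dvd_zero _
  · have h1 : HasMod (4 * d) (4 * q) := by
      refine core hARR hFOUR hEMB hBLOW (4 * q) k d (Dvd.intro _ rfl) hd
        (fun l hl => hasHad_of_PUk (hk l (hl.trans hqn))) ?_
      have e1 : n ≤ 4 * q * 2 ^ k := by
        rw [hn4, mul_comm]
        exact Nat.mul_le_mul_left _ (Nat.pow_le_pow_right (by norm_num) hkb.le)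
      exact Nat.le_of_mul_le_mul_right (hsz.trans e1) (by positivity)
    obtain ⟨H, h2, h3⟩ := double h1 b
    have e2 : (2 : ℤ) ^ b * (4 * d) = ((2 ^ (b + 2) * d : ℕ) : ℤ) := by push_cast; ring
    rw [e2] at h3
    subst hn4
    refine ⟨H, h2, fun i j hij => ?_⟩
    have h4 := h3 i j hij
    rw [Matrix.mul_apply]
    exact h4

end Pool.Agent.H29MM
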