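import Pool.Agent.H29MM.Stm

/-!
Stub ODD: symmetric weighing matrices of weight `a ^ 2` for all odd `a`.
-/

set_option autoImplicit false

open Matrix

namespace Pool.Agent.H29MM.ODD

open Pool.Agent.H29MM

theorem isW_reindex {a : ℕ} {κ κ' : Type} [Fintype κ] [DecidableEq κ] [Fintype κ'] [DecidableEq κ']
    {M : Matrix κ κ ℤ} (h : IsW a M) (e : κ' ≃ κ) : IsW a (M.submatrix e e) where
  tri := fun i j => h.tri _ _
  sym := fun i j => h.sym _ _
  sq := by
    rw [submatrix_mul_equiv, h.sq]
    ext i j
    simp only [submatrix_apply, Matrix.smul_apply, Matrix.one_apply, e.injective.eq_iff]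

theorem isW_kron {a b : ℕ} {κ κ' : Type} [Fintype κ] [DecidableEq κ] [Fintype κ'] [DecidableEq κ']
    {M : Matrix κ κ ℤ} {M' : Matrix κ' κ' ℤ} (h : IsW a M) (h' : IsW b M') :
    IsW (a * b) (kroneckerMap (fun x y => x * y) M M') where
  tri := fun i j => by
    simp only [kroneckerMap_apply]
    rcases h.tri i.1 j.1 with h1 | h1 | h1 <;> rcases h'.tri i.2 j.2 with h2 | h2 | h2 <;> simp [h1, h2]
  sym := fun i j => by
    simp only [kroneckerMap_apply]
    rw [h.sym i.1 j.1, h'.sym i.2 j.2]
  sq := by
    have h1 := Matrix.mul_kronecker_mul M M M' M'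
    have h2 : kroneckerMap (fun x y => x * y) M M' * kroneckerMap (fun x y => x * y) M M' =
      kroneckerMap (fun x y => x * y) (M * M) (M' * M') := h1.symm
    rw [h2, h.sq, h'.sq]
    ext i j
    simp only [kroneckerMap_apply, Matrix.smul_apply, Matrix.one_apply, smul_eq_mul]
    by_cases h3 : i.1 = j.1
    · by_cases h4 : i.2 = j.2
      · have h5 : i = j := Prod.ext h3 h4
        rw [if_pos h3, if_pos h4, if_pos h5]
        push_cast
        ring
      · have h5 : i ≠ j := fun h => h4 (by rw [h])
        rw [if_neg h4, if_neg h5]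
        ring
    · have h5 : i ≠ j := fun h => h3 (by rw [h])
      rw [if_neg h3, if_neg h5]
      ring

theorem t (h : St_PGM) : St_ODD := by
  intro a
  induction a using Nat.strong_induction_on with
  | _ a ih =>
    intro ha
    by_cases h1 : a = 1
    · subst h1
      refine ⟨1, odd_one, by norm_num, 1, ⟨fun i j => ?_, fun i j => ?_, ?_⟩⟩
      · have : i = j := Subsingleton.elim _ _
        subst this
        right; left
        simp
      · have : i = j := Subsingleton.elim _ _
        rw [this]
      · simp
    · have hp := Nat.minFac_prime h1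
      obtain ⟨b, hb⟩ := Nat.minFac_dvd a
      set p := a.minFac with hpd
      have ha0 : 0 < a := ha.pos
      have hb0 : 0 < b := by
        rcases Nat.eq_zero_or_pos b with h2 | h2
        · rw [h2] at hb; omega
        · exact h2
      have hodd : Odd p ∧ Odd b := by
        rw [hb] at ha
        exact Nat.odd_mul.mp ha
      have hp2 : p ≠ 2 := by
        intro h2
        rw [h2] at hodd
        exact absurd hodd.1 (by decide)
      have hp3 : 3 ≤ p := by
        have := hp.two_le
        omega
      have hba : b < a := by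
        rw [hb]
        nlinarith
      obtain ⟨k, hk, hkb, M, hM⟩ := ih b hba hodd.2
      obtain ⟨M', hM'⟩ := h p hp hp2
      have h5 := isW_reindex (isW_kron hM' hM) (finProdFinEquiv (m := p ^ 2 + p + 1) (n := k)).symm
      rw [← hb] at h5
      refine ⟨(p ^ 2 + p + 1) * k, ?_, ?_, _, h5⟩
      · refine Odd.mul ?_ hk
        have : Even (p * (p + 1)) := Nat.even_mul_succ_self p
        have h3 : p ^ 2 + p + 1 = p * (p + 1) + 1 := by ring
        rw [h3]
        exact this.add_one
      · have h4 : p ^ 2 + p + 1 ≤ p ^ 3 := by nlinarith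
        calc (p ^ 2 + p + 1) * k ≤ p ^ 3 * b ^ 3 := Nat.mul_le_mul h4 hkb
          _ = a ^ 3 := by rw [hb]; ring

end Pool.Agent.H29MM.ODD
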