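import Pool.Agent.H29MM.Stm

/-!
# Project MM, stub PGM: the symmetric weighing matrix of the projective plane
-/

set_option autoImplicit false

namespace Pool.Agent.H29MM.PGM

open Matrix Finset

/-- vectors -/
abbrev F3 (p : ℕ) : Type := ZMod p × ZMod p × ZMod p

/-- the points of the projective plane -/
abbrev R (p : ℕ) : Type := (ZMod p × ZMod p) ⊕ (ZMod p ⊕ Unit)

variable {p : ℕ} [Fact p.Prime]

/-- the representatives -/
def rep : R p → F3 p
  | Sum.inl b => (1, b.1, b.2)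
  | Sum.inr (Sum.inl c) => (0, 1, c)
  | Sum.inr (Sum.inr _) => (0, 0, 1)

/-- the dot product -/
def dt (x y : F3 p) : ZMod p := x.1 * y.1 + x.2.1 * y.2.1 + x.2.2 * y.2.2

/-- the quadratic character -/
noncomputable def chi (a : ZMod p) : ℤ := quadraticChar (ZMod p) a

lemma dt_comm (x y : F3 p) : dt x y = dt y x := by
  unfold dt
  ring

lemma dt_add (x y z : F3 p) : dt x (y + z) = dt x y + dt x z := by
  unfold dt
  simp only [Prod.fst_add, Prod.snd_add]
  ring

lemma dt_smul (x y : F3 p) (c : ZMod p) : dt x (c • y) = c * dt x y := by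
  unfold dt
  simp only [Prod.smul_fst, Prod.smul_snd, smul_eq_mul]
  ring

lemma chi_mul (a b : ZMod p) : chi (a * b) = chi a * chi b := by
  unfold chi
  exact map_mul _ _ _

lemma chi_sq {a : ZMod p} (ha : a ≠ 0) : chi a * chi a = 1 := by
  have := quadraticChar_sq_one (F := ZMod p) ha
  unfold chi
  rw [← pow_two]
  exact this

lemma chi_zero : chi (0 : ZMod p) = 0 := by
  unfold chi
  exact MulChar.map_zero _

lemma chi_tri (a : ZMod p) : chi a = 0 ∨ chi a = 1 ∨ chi a = -1 := by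
  by_cases ha : a = 0
  · left
    rw [ha, chi_zero]
  · right
    have h := chi_sq ha
    have h1 : (chi a - 1) * (chi a + 1) = 0 := by linear_combination h
    rcases mul_eq_zero.1 h1 with h2 | h2
    · left
      linarith
    · right
      linarith

/-- sums of homogeneous functions -/
lemma sum_hom (f : F3 p → ℤ) (h0 : f 0 = 0) (hh : ∀ c : ZMod p, c ≠ 0 → ∀ v, f (c • v) = f v) :
    ∑ v, f v = ((p : ℤ) - 1) * ∑ y : R p, f (rep y) := by
  have hcard : ∀ K : ℤ, ∑ _a ∈ (univ : Finset (ZMod p)).erase 0, K = ((p : ℤ) - 1) * K := by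
    intro K
    rw [sum_const, card_erase_of_mem (mem_univ _), card_univ, ZMod.card, nsmul_eq_mul, Nat.cast_sub (Fact.out : p.Prime).one_lt.le]
    push_cast
    ring
  have h3 : ∑ c : ZMod p, f (0, 0, c) = ((p : ℤ) - 1) * f (0, 0, 1) := by
    rw [← add_sum_erase _ _ (mem_univ (0 : ZMod p))]
    have h00 : f (0, 0, 0) = 0 := h0
    rw [h00, zero_add, ← hcard]
    refine sum_congr rfl fun c hc => ?_
    have := hh c (ne_of_mem_erase hc) (0, 0, 1)
    rw [← this]
    congr 1
    simp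
  have h2 : ∑ b : ZMod p, ∑ c : ZMod p, f (0, b, c) = ((p : ℤ) - 1) * ∑ c : ZMod p, f (0, 1, c) + ((p : ℤ) - 1) * f (0, 0, 1) := by
    rw [← add_sum_erase _ _ (mem_univ (0 : ZMod p)), h3, add_comm]
    congr 1
    rw [← hcard]
    refine sum_congr rfl fun b hb => ?_
    have hb0 := ne_of_mem_erase hb
    rw [← Equiv.sum_comp (Equiv.mulLeft₀ b hb0)]
    refine sum_congr rfl fun c _ => ?_
    rw [← hh b hb0 (0, 1, c)]
    congr 1
    simp
  have h1 : ∑ a : ZMod p, ∑ b : ZMod p, ∑ c : ZMod p, f (a, b, c) =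
      ((p : ℤ) - 1) * ∑ b : ZMod p, ∑ c : ZMod p, f (1, b, c) +
        (((p : ℤ) - 1) * ∑ c : ZMod p, f (0, 1, c) + ((p : ℤ) - 1) * f (0, 0, 1)) := by
    rw [← add_sum_erase _ _ (mem_univ (0 : ZMod p)), h2, add_comm]
    congr 1
    rw [← hcard]
    refine sum_congr rfl fun a ha => ?_
    have ha0 := ne_of_mem_erase ha
    rw [← Equiv.sum_comp (Equiv.mulLeft₀ a ha0)]
    refine sum_congr rfl fun b _ => ?_
    rw [← Equiv.sum_comp (Equiv.mulLeft₀ a ha0)]
    refine sum_congr rfl fun c _ => ?_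
    rw [← hh a ha0 (1, b, c)]
    congr 1
    simp
  rw [Fintype.sum_prod_type]
  simp_rw [Fintype.sum_prod_type]
  rw [h1, Fintype.sum_sum_type, Fintype.sum_sum_type, Fintype.sum_prod_type]
  simp only [rep, univ_unique, sum_singleton]
  ring

lemma sum_trans (h : F3 p → ℤ) (w : F3 p) : ∑ v, h v = ∑ v, h (v + w) :=
  (Equiv.sum_comp (Equiv.addRight w) h).symm

/-- orthogonality -/
lemma ortho (hp2 : p ≠ 2) (x z w : F3 p) (hx : dt x w = 0) (hz : dt z w = 1) : ∑ v, chi (dt x v) * chi (dt z v) = 0 := by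
  have hF : ringChar (ZMod p) ≠ 2 := by rwa [ZMod.ringChar_zmod_n]
  have h1 : ∀ s : ZMod p, ∑ v, chi (dt x v) * chi (dt z v) = ∑ v, chi (dt x v) * chi (dt z v + s) := by
    intro s
    rw [sum_trans _ (s • w)]
    refine sum_congr rfl fun v _ => ?_
    rw [dt_add, dt_add, dt_smul, dt_smul, hx, hz, mul_zero, add_zero, mul_one]
  have h2 : ∑ _s : ZMod p, ∑ v, chi (dt x v) * chi (dt z v) = 0 := by
    rw [sum_congr rfl fun s _ => h1 s, sum_comm]
    refine sum_eq_zero fun v _ => ?_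
    rw [← mul_sum]
    have h3 : ∑ s : ZMod p, chi (dt z v + s) = 0 := by
      have h4 := Equiv.sum_comp (Equiv.addLeft (dt z v)) (fun s : ZMod p => chi s)
      simp only [Equiv.coe_addLeft] at h4
      rw [h4]
      exact quadraticChar_sum_zero hF
    rw [h3, mul_zero]
  rw [sum_const, card_univ, ZMod.card, nsmul_eq_mul] at h2
  exact (mul_eq_zero.1 h2).resolve_left (by exact_mod_cast (Fact.out : p.Prime).ne_zero)

/-- the norm -/
lemma norm_sum (x w : F3 p) (hx : dt x w = 1) : ∑ v, chi (dt x v) * chi (dt x v) = ((p : ℤ) - 1) * p ^ 2 := by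
  have h1 : ∀ s : ZMod p, ∑ v, chi (dt x v) * chi (dt x v) = ∑ v, chi (dt x v + s) * chi (dt x v + s) := by
    intro s
    rw [sum_trans _ (s • w)]
    refine sum_congr rfl fun v _ => ?_
    rw [dt_add, dt_smul, hx, mul_one]
  have h2 : ∑ _s : ZMod p, ∑ v, chi (dt x v) * chi (dt x v) = (p : ℤ) ^ 3 * ((p : ℤ) - 1) := by
    rw [sum_congr rfl fun s _ => h1 s, sum_comm]
    have h3 : ∀ v ∈ (univ : Finset (F3 p)), ∑ s : ZMod p, chi (dt x v + s) * chi (dt x v + s) = (p : ℤ) - 1 := by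
      intro v _
      have h4 := Equiv.sum_comp (Equiv.addLeft (dt x v)) (fun s : ZMod p => chi s * chi s)
      simp only [Equiv.coe_addLeft] at h4
      rw [h4, ← add_sum_erase _ _ (mem_univ (0 : ZMod p)), chi_zero, mul_zero, zero_add,
        sum_congr rfl fun s hs => chi_sq (ne_of_mem_erase hs), sum_const, card_erase_of_mem (mem_univ _), card_univ, ZMod.card,
        nsmul_eq_mul, Nat.cast_sub (Fact.out : p.Prime).one_lt.le]
      push_cast
      ring
    rw [sum_congr rfl h3, sum_const, card_univ, Fintype.card_prod, Fintype.card_prod, ZMod.card, nsmul_eq_mul]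
    push_cast
    ring
  rw [sum_const, card_univ, ZMod.card, nsmul_eq_mul] at h2
  have hp0 : (p : ℤ) ≠ 0 := by exact_mod_cast (Fact.out : p.Prime).ne_zero
  apply mul_left_cancel₀ hp0
  rw [h2]
  ring

/-- a dual vector from a nonzero minor -/
lemma exists_dual (x z : F3 p) (h : x.1 * z.2.1 - x.2.1 * z.1 ≠ 0 ∨ x.1 * z.2.2 - x.2.2 * z.1 ≠ 0 ∨
    x.2.1 * z.2.2 - x.2.2 * z.2.1 ≠ 0) : ∃ w, dt x w = 0 ∧ dt z w = 1 := by
  rcases h with h | h | h
  · refine ⟨(-x.2.1 / (x.1 * z.2.1 - x.2.1 * z.1), x.1 / (x.1 * z.2.1 - x.2.1 * z.1), 0), ?_, ?_⟩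
    · unfold dt
      simp only
      ring
    · unfold dt
      simp only
      have e : z.1 * (-x.2.1 / (x.1 * z.2.1 - x.2.1 * z.1)) + z.2.1 * (x.1 / (x.1 * z.2.1 - x.2.1 * z.1)) + z.2.2 * 0 =
        (x.1 * z.2.1 - x.2.1 * z.1) / (x.1 * z.2.1 - x.2.1 * z.1) := by ring
      rw [e, div_self h]
  · refine ⟨(-x.2.2 / (x.1 * z.2.2 - x.2.2 * z.1), 0, x.1 / (x.1 * z.2.2 - x.2.2 * z.1)), ?_, ?_⟩
    · unfold dt
      simp only
      ring
    · unfold dt
      simp only
      have e : z.1 * (-x.2.2 / (x.1 * z.2.2 - x.2.2 * z.1)) + z.2.1 * 0 + z.2.2 * (x.1 / (x.1 * z.2.2 - x.2.2 * z.1)) =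
        (x.1 * z.2.2 - x.2.2 * z.1) / (x.1 * z.2.2 - x.2.2 * z.1) := by ring
      rw [e, div_self h]
  · refine ⟨(0, -x.2.2 / (x.2.1 * z.2.2 - x.2.2 * z.2.1), x.2.1 / (x.2.1 * z.2.2 - x.2.2 * z.2.1)), ?_, ?_⟩
    · unfold dt
      simp only
      ring
    · unfold dt
      simp only
      have e : z.1 * 0 + z.2.1 * (-x.2.2 / (x.2.1 * z.2.2 - x.2.2 * z.2.1)) + z.2.2 * (x.2.1 / (x.2.1 * z.2.2 - x.2.2 * z.2.1)) =
        (x.2.1 * z.2.2 - x.2.2 * z.2.1) / (x.2.1 * z.2.2 - x.2.2 * z.2.1) := by ring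
      rw [e, div_self h]

lemma rep_minor (x z : R p) (h : x ≠ z) : (rep x).1 * (rep z).2.1 - (rep x).2.1 * (rep z).1 ≠ 0 ∨
    (rep x).1 * (rep z).2.2 - (rep x).2.2 * (rep z).1 ≠ 0 ∨ (rep x).2.1 * (rep z).2.2 - (rep x).2.2 * (rep z).2.1 ≠ 0 := by
  rcases x with ⟨b, c⟩ | c | _ <;> rcases z with ⟨b', c'⟩ | c' | _
  · by_cases hb : b = b'
    · right; left
      have hc : c ≠ c' := by
        rintro rfl
        exact h (by rw [hb])
      simp only [rep, one_mul, mul_one]
      exact sub_ne_zero.2 hc.symm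
    · left
      simp only [rep, one_mul, mul_one]
      exact sub_ne_zero.2 (Ne.symm hb)
  · left
    simp [rep]
  · right; left
    simp [rep]
  · left
    simp [rep]
  · right; right
    have hc : c ≠ c' := by
      rintro rfl
      exact h rfl
    simp only [rep, one_mul, mul_one]
    exact sub_ne_zero.2 hc.symm
  · right; right
    simp [rep]
  · right; left
    simp [rep]
  · right; right
    simp [rep]
  · exact absurd rfl h

lemma rep_dual (x : R p) : ∃ w, dt (rep x) w = 1 := by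
  rcases x with ⟨b, c⟩ | c | _
  · exact ⟨(1, 0, 0), by simp [dt, rep]⟩
  · exact ⟨(0, 1, 0), by simp [dt, rep]⟩
  · exact ⟨(0, 0, 1), by simp [dt, rep]⟩

theorem t : St_PGM := by
  intro p hp hp2
  haveI : Fact p.Prime := ⟨hp⟩
  have hp1 : ((p : ℤ) - 1) ≠ 0 := by
    have := hp.one_lt
    omega
  have key : ∀ x z : R p, ∑ y : R p, chi (dt (rep x) (rep y)) * chi (dt (rep z) (rep y)) = if x = z then (p : ℤ) ^ 2 else 0 := by
    intro x z
    have h1 := sum_hom (fun v : F3 p => chi (dt (rep x) v) * chi (dt (rep z) v)) (by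
        have : dt (rep x) (0 : F3 p) = 0 := by simp [dt]
        rw [this, chi_zero, zero_mul])
      (fun c hc v => by
        rw [dt_smul, dt_smul, chi_mul, chi_mul]
        have := chi_sq hc
        linear_combination (chi (dt (rep x) v) * chi (dt (rep z) v)) * this)
    split_ifs with h
    · subst h
      obtain ⟨w, hw⟩ := rep_dual x
      rw [norm_sum _ w hw] at h1
      exact (mul_left_cancel₀ hp1 h1).symm
    · obtain ⟨w, hw1, hw2⟩ := exists_dual _ _ (rep_minor x z h)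
      rw [ortho hp2 _ _ w hw1 hw2] at h1
      exact (mul_eq_zero.1 h1.symm).resolve_left hp1
  let M : Matrix (R p) (R p) ℤ := fun x y => chi (dt (rep x) (rep y))
  have hM : M * M = ((p : ℤ) ^ 2) • (1 : Matrix (R p) (R p) ℤ) := by
    ext x z
    rw [Matrix.mul_apply, Matrix.smul_apply, Matrix.one_apply, smul_eq_mul]
    have h1 : ∀ y ∈ (univ : Finset (R p)), M x y * M y z = chi (dt (rep x) (rep y)) * chi (dt (rep z) (rep y)) := by
      intro y _
      show chi (dt (rep x) (rep y)) * chi (dt (rep y) (rep z)) = _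
      rw [dt_comm (rep y)]
    rw [sum_congr rfl h1, key]
    split_ifs <;> simp
  have hcard : Fintype.card (R p) = p ^ 2 + p + 1 := by
    rw [Fintype.card_sum, Fintype.card_sum, Fintype.card_prod, ZMod.card, Fintype.card_unit]
    ring
  let e : R p ≃ Fin (p ^ 2 + p + 1) := Fintype.equivFinOfCardEq hcard
  refine ⟨M.submatrix e.symm e.symm, fun i j => chi_tri _, fun i j => ?_, ?_⟩
  · show chi _ = chi _
    rw [dt_comm]
  · rw [Matrix.submatrix_mul_equiv, hM, Matrix.submatrix_smul]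
    simp

end Pool.Agent.H29MM.PGM
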