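import Pool.Agent.H29MM.Stm

/-!
# SIZE: the size estimate
-/

set_option autoImplicit false

namespace Pool.Agent.H29MM.SIZE

theorem t : Pool.Agent.H29MM.St_SIZE := by
  obtain ⟨X, hX⟩ : ∃ X : ℝ, X = 16 * 20 ^ 6 + 23 + 5 * 20 ^ 6 := ⟨_, rfl⟩
  have hX1 : 1 ≤ X := by rw [hX]; norm_num
  refine ⟨⌈Real.exp (X ^ 8)⌉₊, ?_⟩
  intro n k d hn hk hd1 hd
  have hn1 : Real.exp (X ^ 8) ≤ n := Nat.ceil_le.1 hn
  have hn0 : (0 : ℝ) < n := lt_of_lt_of_le (Real.exp_pos _) hn1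
  obtain ⟨l, hl⟩ : ∃ l : ℝ, l = Real.log n := ⟨_, rfl⟩
  rw [← hl] at hk hd
  have hl1 : X ^ 8 ≤ l := by rw [hl]; exact (Real.le_log_iff_exp_le hn0).2 hn1
  have hl0 : 0 ≤ l := le_trans (by positivity) hl1
  obtain ⟨x, hx⟩ : ∃ x : ℝ, x = l ^ (1 / 8 : ℝ) := ⟨_, rfl⟩
  rw [← hx] at hd
  have hx0 : 0 ≤ x := by rw [hx]; positivity
  have hx8 : x ^ 8 = l := by
    rw [hx, ← Real.rpow_natCast, ← Real.rpow_mul hl0]; norm_num
  have hXx : X ≤ x := by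
    have h : X ^ 8 ≤ x ^ 8 := by rw [hx8]; exact hl1
    exact le_of_pow_le_pow_left₀ (by norm_num) hx0 h
  have hx1 : 1 ≤ x := hX1.trans hXx
  have hd1' : (1 : ℝ) ≤ d := by exact_mod_cast hd1
  have hB0 : (8 * (d : ℝ) + 12) ≤ 20 * x := by linarith
  have hB : (8 * (d : ℝ) + 12) ^ 6 ≤ 20 ^ 6 * x ^ 6 := by
    rw [← mul_pow]
    exact pow_le_pow_left₀ (by positivity) hB0 6
  have h2 : ∀ m : ℕ, (2 : ℝ) ^ m ≤ Real.exp m := by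
    intro m
    have h : (2 : ℝ) ≤ Real.exp 1 := by
      have := Real.add_one_le_exp (1 : ℝ); linarith
    calc (2 : ℝ) ^ m ≤ (Real.exp 1) ^ m := pow_le_pow_left₀ (by norm_num) h m
      _ = Real.exp m := by rw [← Real.exp_nat_mul, mul_one]
  have h3 : (2 : ℝ) ^ (5 * (8 * d + 12) ^ 6) ≤ Real.exp (5 * 20 ^ 6 * x ^ 6) := by
    refine (h2 _).trans (Real.exp_le_exp.2 ?_)
    push_cast
    linarith
  have h4 : ((2 : ℝ) ^ k) ^ 2 ≤ (x ^ 8) ^ 2 := by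
    rw [hx8]; exact pow_le_pow_left₀ (by positivity) hk 2
  have h5 : x ^ 23 ≤ Real.exp (23 * x) := by
    have : x ≤ Real.exp x := by have := Real.add_one_le_exp x; linarith
    calc x ^ 23 ≤ (Real.exp x) ^ 23 := pow_le_pow_left₀ hx0 this 23
      _ = Real.exp (23 * x) := by rw [← Real.exp_nat_mul]; norm_num
  have h6 : (16 * 20 ^ 6 : ℝ) ≤ Real.exp (16 * 20 ^ 6) := by
    have := Real.add_one_le_exp (16 * 20 ^ 6 : ℝ); linarith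
  have h7 : 16 * 20 ^ 6 + 23 * x + 5 * 20 ^ 6 * x ^ 6 ≤ x ^ 8 := by
    have e1 : (1 : ℝ) ≤ x ^ 6 := one_le_pow₀ hx1
    have e2 : x ≤ x ^ 6 := by
      calc x = x ^ 1 := (pow_one x).symm
        _ ≤ x ^ 6 := pow_le_pow_right₀ hx1 (by norm_num)
    have e3 : X * x ^ 6 ≤ x * x ^ 6 := mul_le_mul_of_nonneg_right hXx (by positivity)
    have e4 : x * x ^ 6 ≤ x ^ 8 := by
      calc x * x ^ 6 = x ^ 7 := by ring
        _ ≤ x ^ 8 := pow_le_pow_right₀ hx1 (by norm_num)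
    have e5 : 16 * 20 ^ 6 + 23 * x + 5 * 20 ^ 6 * x ^ 6 ≤ X * x ^ 6 := by
      rw [hX]; nlinarith
    linarith
  have hgoal : ((4 * ((8 * d + 12) ^ 6 * d * 2 ^ (5 * (8 * d + 12) ^ 6 + k + 2)) * 2 ^ k : ℕ) : ℝ)
      ≤ n := by
    push_cast
    calc (4 * ((8 * (d : ℝ) + 12) ^ 6 * d * 2 ^ (5 * (8 * d + 12) ^ 6 + k + 2)) * 2 ^ k : ℝ)
        = 16 * (8 * (d : ℝ) + 12) ^ 6 * d * (2 : ℝ) ^ (5 * (8 * d + 12) ^ 6) * ((2 : ℝ) ^ k) ^ 2 := by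
          rw [pow_add, pow_add]; ring
      _ ≤ 16 * (20 ^ 6 * x ^ 6) * x * Real.exp (5 * 20 ^ 6 * x ^ 6) * (x ^ 8) ^ 2 := by
          gcongr
      _ = (16 * 20 ^ 6) * x ^ 23 * Real.exp (5 * 20 ^ 6 * x ^ 6) := by ring
      _ ≤ Real.exp (16 * 20 ^ 6) * Real.exp (23 * x) * Real.exp (5 * 20 ^ 6 * x ^ 6) := by
          gcongr
      _ = Real.exp (16 * 20 ^ 6 + 23 * x + 5 * 20 ^ 6 * x ^ 6) := by
          rw [Real.exp_add, Real.exp_add]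
      _ ≤ Real.exp (x ^ 8) := Real.exp_le_exp.2 h7
      _ = n := by rw [hx8, hl, Real.exp_log hn0]
  exact_mod_cast hgoal

end Pool.Agent.H29MM.SIZE
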